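import Pool.Agent.W5h25.DS.D

set_option autoImplicit false

/-! # The digit sums -/

namespace Pool.Agent.W5h25.DS

open Finset
open Pool.Agent.W5h47.LT (SA SS Co co_complete co_partial zd_ex)
open Pool.Agent.H499R2.ND (Dn zd_mono)
open Pool.Agent.W5h47.BD (zd_union zd_small)

/-- the sum of the digits -/
def ds (b n : ℕ) : ℕ := (Nat.digits b n).sum

theorem ds_add {b : ℕ} (hb : 2 ≤ b) (n d : ℕ) (hd : d < b) : ds b (b * n + d) = ds b n + d := by
  unfold ds
  by_cases h : d = 0 ∧ n = 0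
  · rw [h.1, h.2]; simp
  · have h1 : d ≠ 0 ∨ n ≠ 0 := by
      by_contra h2
      push Not at h2
      exact h h2
    rw [show b * n + d = d + b * n by ring, Nat.digits_add b (by omega) d n hd h1, List.sum_cons]
    ring

theorem ds_lt {b : ℕ} (hb : 2 ≤ b) {d : ℕ} (hd : d < b) : ds b d = d := by
  have := ds_add hb 0 d hd
  rw [mul_zero, zero_add] at this
  rw [this]
  simp [ds]

theorem sm_ds {b : ℕ} (hb : 2 ≤ b) {ζ : ℂ} (hζ : ‖ζ‖ = 1) : SM b (fun n => ζ ^ ds b n) := by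
  refine ⟨fun n => by rw [norm_pow, hζ, one_pow], fun n d hd => ?_⟩
  show ζ ^ ds b (b * n + d) = ζ ^ ds b n * ζ ^ ds b d
  rw [ds_add hb n d hd, ds_lt hb hd, pow_add]

theorem ds_not_char {b : ℕ} (hb : 2 ≤ b) {ζ : ℂ} (hζ : ‖ζ‖ = 1) (h : ζ ^ (b - 1) ≠ 1) :
    ¬ IsChar (fun n => ζ ^ ds b n) := by
  rintro ⟨κ, hκ⟩
  have h1 := sm_one hb (sm_ds hb hζ) hκ
  have h2 := hκ 1
  rw [pow_one] at h2
  have h3 : ds b 1 = 1 := ds_lt hb (by omega)
  simp only [h3, pow_one] at h2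
  rw [h2] at h
  exact h h1

theorem zd_finset {ι : Type} [DecidableEq ι] (P : ι → ℕ → Prop) (S : Finset ι) (h : ∀ i ∈ S, Dn (P i) 0) :
    Dn (fun n => ∃ i ∈ S, P i n) 0 := by
  induction S using Finset.induction_on with
  | empty =>
    refine zd_mono (zd_small (-1)) ?_
    rintro n _ ⟨i, hi, _⟩
    simp at hi
  | insert i S hi ih =>
    refine zd_mono (zd_union (h i (mem_insert_self i S)) (ih fun j hj => h j (mem_insert_of_mem hj))) ?_
    rintro n _ ⟨j, hj, h1⟩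
    rcases mem_insert.1 hj with rfl | h2
    · exact Or.inl h1
    · exact Or.inr ⟨j, h2, h1⟩

/-- the root of unity -/
noncomputable def rt (m : ℕ) : ℂ := Complex.exp (2 * Real.pi * Complex.I / m)

theorem rt_prim {m : ℕ} (hm : 0 < m) : IsPrimitiveRoot (rt m) m := Complex.isPrimitiveRoot_exp m (by omega)

theorem rt_norm {m : ℕ} (hm : 0 < m) : ‖rt m‖ = 1 := (rt_prim hm).norm'_eq_one (by omega)

/-- finite Fourier expansion of a residue class -/
theorem fourier_class {m : ℕ} (hm : 0 < m) (x r : ℕ) (hr : r < m) :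
    (if x % m = r then (1 : ℂ) else 0) =
      (1 / m) * ∑ h ∈ range m, (rt m ^ h) ^ x * star ((rt m ^ h) ^ r) := by
  have h1 : ∀ h : ℕ, (rt m ^ h) ^ x * star ((rt m ^ h) ^ r) = (rt m ^ x * star (rt m ^ r)) ^ h := by
    intro h
    rw [mul_pow, ← pow_mul, ← pow_mul, ← pow_mul, star_pow, star_pow, ← pow_mul, mul_comm h x,
      mul_comm h r]
  simp_rw [h1]
  set z := rt m ^ x * star (rt m ^ r) with hz
  have hmc : (m : ℂ) ≠ 0 := by exact_mod_cast hm.ne'
  have hstar : star (rt m ^ r) * rt m ^ r = 1 := star_mul_self' (by rw [norm_pow, rt_norm hm, one_pow])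
  have hzm : z ^ m = 1 := by
    rw [hz, mul_pow, ← star_pow, ← pow_mul, ← pow_mul, mul_comm x m, mul_comm r m, pow_mul, pow_mul,
      (rt_prim hm).pow_eq_one, one_pow, one_pow, star_one, mul_one]
  have hzr : z * rt m ^ r = rt m ^ x := by
    rw [hz, mul_assoc, hstar, mul_one]
  by_cases h : x % m = r
  · rw [if_pos h]
    have h2 : rt m ^ x = rt m ^ r := by
      conv_lhs => rw [← Nat.div_add_mod x m, pow_add, pow_mul, (rt_prim hm).pow_eq_one, one_pow, one_mul, h]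
    have h3 : z = 1 := by
      rw [hz, h2, mul_comm]; exact hstar
    rw [h3]
    simp only [one_pow, sum_const, card_range, nsmul_eq_mul, mul_one]
    rw [one_div_mul_cancel hmc]
  · rw [if_neg h]
    have h3 : z ≠ 1 := by
      intro h4
      rw [h4, one_mul] at hzr
      have h5 : rt m ^ r = rt m ^ (x % m) := by
        rw [hzr]
        conv_lhs => rw [← Nat.div_add_mod x m, pow_add, pow_mul, (rt_prim hm).pow_eq_one, one_pow, one_mul]
      exact h ((rt_prim hm).pow_inj hr (Nat.mod_lt _ hm) h5).symm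
    rw [geom_sum_eq h3, hzm, sub_self, zero_div, mul_zero]

/-- the number of terms with prescribed digit sums -/
def cnt {t : ℕ} (b m r : Fin t → ℕ) (q a s n : ℕ) : ℕ :=
  ((range s).filter (fun k => Co^[k] n % q = a ∧ ∀ i, ds (b i) (Co^[k] n) % m i = r i)).card

/-- the number of terms -/
def tot (q a s n : ℕ) : ℕ := ((range s).filter (fun k => Co^[k] n % q = a)).card

/-- the frequencies -/
def frq {t : ℕ} (m : Fin t → ℕ) : Finset (Fin t → ℕ) :=
  (Fintype.piFinset (fun i => range (m i))).filter (fun h => ∃ i, h i ≠ 0)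

/-- the products -/
noncomputable def pf {t : ℕ} (b m h : Fin t → ℕ) (n : ℕ) : ℂ := ∏ i, (rt (m i) ^ h i) ^ ds (b i) n

theorem cnt_expand {t : ℕ} (b m r : Fin t → ℕ) (hm : ∀ i, 0 < m i) (hr : ∀ i, r i < m i) (q a s n : ℕ) :
    (cnt b m r q a s n : ℂ) = (1 / ∏ i, (m i : ℂ)) * ∑ h ∈ Fintype.piFinset (fun i => range (m i)),
      (∏ i, star ((rt (m i) ^ h i) ^ r i)) * cs (pf b m h) q a s n := by
  classical
  have h1 : ∀ x : ℕ, (if ∀ i, ds (b i) x % m i = r i then (1 : ℂ) else 0) =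
      (1 / ∏ i, (m i : ℂ)) * ∑ h ∈ Fintype.piFinset (fun i => range (m i)),
        (∏ i, star ((rt (m i) ^ h i) ^ r i)) * pf b m h x := by
    intro x
    have h2 : (if ∀ i, ds (b i) x % m i = r i then (1 : ℂ) else 0) =
        ∏ i, (if ds (b i) x % m i = r i then (1 : ℂ) else 0) := by
      by_cases h : ∀ i, ds (b i) x % m i = r i
      · rw [if_pos h]
        symm
        exact prod_eq_one fun i _ => if_pos (h i)
      · rw [if_neg h]
        push Not at h
        obtain ⟨i, hi⟩ := h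
        symm
        exact prod_eq_zero (mem_univ i) (if_neg hi)
    rw [h2]
    simp_rw [fun i => fourier_class (hm i) (ds (b i) x) (r i) (hr i)]
    rw [prod_mul_distrib, prod_div_distrib, prod_const_one, prod_univ_sum]
    congr 1
    apply sum_congr rfl
    intro h _
    rw [prod_mul_distrib, mul_comm]
    rfl
  unfold cnt
  rw [card_filter]
  push_cast
  have h3 : ∀ k ∈ range s, (if Co^[k] n % q = a ∧ ∀ i, ds (b i) (Co^[k] n) % m i = r i then (1 : ℂ) else 0) =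
      if Co^[k] n % q = a then (1 / ∏ i, (m i : ℂ)) * ∑ h ∈ Fintype.piFinset (fun i => range (m i)),
        (∏ i, star ((rt (m i) ^ h i) ^ r i)) * pf b m h (Co^[k] n) else 0 := by
    intro k _
    rw [← h1]
    by_cases h4 : Co^[k] n % q = a
    · rw [if_pos h4]
      by_cases h5 : ∀ i, ds (b i) (Co^[k] n) % m i = r i
      · rw [if_pos h5, if_pos ⟨h4, h5⟩]
      · rw [if_neg h5, if_neg (fun h6 => h5 h6.2)]
    · rw [if_neg h4, if_neg (fun h6 => h4 h6.1)]
  rw [sum_congr rfl h3, ← sum_filter, ← mul_sum, sum_comm]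
  congr 1
  apply sum_congr rfl
  intro h _
  rw [← mul_sum]
  rfl

theorem cnt_bound {t : ℕ} (b m r : Fin t → ℕ) (hm : ∀ i, 0 < m i) (hr : ∀ i, r i < m i) (q a s n : ℕ)
    {B : ℝ} (hB : 0 ≤ B) (hh : ∀ h ∈ frq m, ‖cs (pf b m h) q a s n‖ ≤ B) :
    |(cnt b m r q a s n : ℝ) - 1 / (∏ i, (m i : ℝ)) * tot q a s n| ≤ B := by
  classical
  have h1 := cnt_expand b m r hm hr q a s n
  have hPi : 0 < ∏ i, (m i : ℝ) := prod_pos fun i _ => by exact_mod_cast hm i
  set S := Fintype.piFinset (fun i => range (m i)) with hS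
  have h0 : (fun _ => 0 : Fin t → ℕ) ∈ S := by
    rw [hS, Fintype.mem_piFinset]
    exact fun i => mem_range.2 (hm i)
  have hfr : frq m = S.erase (fun _ => 0) := by
    ext h
    unfold frq
    rw [mem_filter, mem_erase, and_comm]
    constructor
    · rintro ⟨⟨i, hi⟩, h3⟩
      exact ⟨fun h4 => hi (by rw [h4]), h3⟩
    · rintro ⟨h3, h4⟩
      refine ⟨?_, h4⟩
      by_contra h5
      push Not at h5
      exact h3 (funext h5)
  rw [← add_sum_erase S _ h0, ← hfr] at h1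
  have h2 : (∏ i, star ((rt (m i) ^ (fun _ => 0 : Fin t → ℕ) i) ^ r i)) *
      cs (pf b m (fun _ => 0)) q a s n = tot q a s n := by
    have h3 : (∏ i, star ((rt (m i) ^ (fun _ => 0 : Fin t → ℕ) i) ^ r i)) = 1 := by
      apply prod_eq_one
      intro i _
      rw [pow_zero, one_pow, star_one]
    rw [h3, one_mul]
    unfold cs tot
    rw [card_filter]
    push_cast
    rw [← sum_filter]
    apply sum_congr rfl
    intro k _
    unfold pf
    apply prod_eq_one
    intro i _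
    rw [pow_zero, one_pow]
  rw [h2] at h1
  have hcard : ((frq m).card : ℝ) ≤ ∏ i, (m i : ℝ) := by
    rw [hfr]
    have h3 : (S.erase (fun _ => 0)).card ≤ S.card := card_le_card (erase_subset _ _)
    have h4 : S.card = ∏ i, m i := by
      rw [hS, Fintype.card_piFinset]
      exact prod_congr rfl fun i _ => card_range _
    rw [h4] at h3
    exact_mod_cast h3
  have h3 : ‖∑ h ∈ frq m, (∏ i, star ((rt (m i) ^ h i) ^ r i)) * cs (pf b m h) q a s n‖ ≤
      (frq m).card * B := by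
    refine (norm_sum_le_of_le _ (f := fun h => (∏ i, star ((rt (m i) ^ h i) ^ r i)) *
      cs (pf b m h) q a s n) (n := fun _ => B) (fun h hh' => ?_)).trans ?_
    · rw [norm_mul, norm_prod]
      have h4 : ∏ i, ‖star ((rt (m i) ^ h i) ^ r i)‖ = 1 := by
        apply prod_eq_one
        intro i _
        rw [norm_star, norm_pow, norm_pow, rt_norm (hm i), one_pow, one_pow]
      rw [h4, one_mul]
      exact hh h hh'
    · rw [sum_const, nsmul_eq_mul]
  have h5 : (((cnt b m r q a s n : ℝ) - 1 / (∏ i, (m i : ℝ)) * tot q a s n : ℝ) : ℂ) =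
      (1 / ∏ i, (m i : ℂ)) * ∑ h ∈ frq m, (∏ i, star ((rt (m i) ^ h i) ^ r i)) * cs (pf b m h) q a s n := by
    push_cast
    rw [h1]
    ring
  have h6 : |(cnt b m r q a s n : ℝ) - 1 / (∏ i, (m i : ℝ)) * tot q a s n| =
      ‖(((cnt b m r q a s n : ℝ) - 1 / (∏ i, (m i : ℝ)) * tot q a s n : ℝ) : ℂ)‖ := by
    rw [Complex.norm_real, Real.norm_eq_abs]
  rw [h6, h5, norm_mul]
  have h7 : ‖(1 / ∏ i, (m i : ℂ))‖ = 1 / ∏ i, (m i : ℝ) := by
    rw [norm_div, norm_one, norm_prod]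
    congr 1
    apply prod_congr rfl
    intro i _
    rw [Complex.norm_natCast]
  rw [h7]
  calc 1 / (∏ i, (m i : ℝ)) * ‖∑ h ∈ frq m, (∏ i, star ((rt (m i) ^ h i) ^ r i)) * cs (pf b m h) q a s n‖
      ≤ 1 / (∏ i, (m i : ℝ)) * ((frq m).card * B) := by gcongr
    _ ≤ 1 / (∏ i, (m i : ℝ)) * ((∏ i, (m i : ℝ)) * B) := by gcongr
    _ = B := by field_simp

theorem frq_sac {t : ℕ} (b m : Fin t → ℕ) (hb : ∀ i, 2 ≤ b i)
    (hco : ∀ i j, i ≠ j → (b i).Coprime (b j)) (hm : ∀ i, 0 < m i)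
    (hmb : ∀ i, (m i).Coprime (b i - 1)) {h : Fin t → ℕ} (hh : h ∈ frq m) : SAc (pf b m h) := by
  classical
  unfold frq at hh
  rw [mem_filter, Fintype.mem_piFinset] at hh
  obtain ⟨h1, i, hi⟩ := hh
  have h2 : ∀ i, ‖rt (m i) ^ h i‖ = 1 := fun i => by rw [norm_pow, rt_norm (hm i), one_pow]
  have h3 := sac_family b hb hco (fun i n => (rt (m i) ^ h i) ^ ds (b i) n)
    (fun i => sm_ds (hb i) (h2 i)) (κ := 1) (by simp) (Or.inl ⟨i, ?_⟩)
  · have h4 : pf b m h = fun n => (∏ i, (rt (m i) ^ h i) ^ ds (b i) n) * 1 ^ n := by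
      funext n
      rw [one_pow, mul_one]
      rfl
    rw [h4]
    exact h3
  · apply ds_not_char (hb i) (h2 i)
    intro h4
    rw [← pow_mul, (rt_prim (hm i)).pow_eq_one_iff_dvd] at h4
    have h5 := (hmb i).dvd_of_dvd_mul_right h4
    have h6 := mem_range.1 (h1 i)
    exact hi (Nat.eq_zero_of_dvd_of_lt h5 h6)

theorem final_ds {t : ℕ} (b m : Fin t → ℕ) (hb : ∀ i, 2 ≤ b i)
    (hco : ∀ i j, i ≠ j → (b i).Coprime (b j)) (hm : ∀ i, 0 < m i)
    (hmb : ∀ i, (m i).Coprime (b i - 1)) (q : ℕ) (hq : 0 < q) (ε : ℝ) (hε : 0 < ε) :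
    Dn (fun n => ∃ l : ℕ, (Co^[l] n = 1 ∧ ∀ j < l, Co^[j] n ≠ 1) ∧ ∃ s ≤ l, ∃ a < q,
      ∃ r : Fin t → ℕ, (∀ i, r i < m i) ∧
      ε * l < |(cnt b m r q a s n : ℝ) - 1 / (∏ i, (m i : ℝ)) * tot q a s n|) 0 ∧
    ∀ c : ℝ, 0 < c → Dn (fun n : ℕ => ∃ s : ℕ,
      (∀ k < s, (n : ℝ) ^ c ≤ ((Co^[k] n : ℕ) : ℝ)) ∧ ∃ a < q,
      ∃ r : Fin t → ℕ, (∀ i, r i < m i) ∧
      ε * Real.log n < |(cnt b m r q a s n : ℝ) - 1 / (∏ i, (m i : ℝ)) * tot q a s n|) 0 := by
  classical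
  constructor
  · refine zd_mono (zd_finset (fun h n => ∃ l : ℕ, (Co^[l] n = 1 ∧ ∀ j < l, Co^[j] n ≠ 1) ∧ ∃ s ≤ l, ∃ a < q,
      ε * l < ‖cs (pf b m h) q a s n‖) (frq m)
      fun h hh => (final (frq_sac b m hb hco hm hmb hh) q hq ε hε).1) ?_
    rintro n _ ⟨l, hl, s, hs, a, ha, r, hr, h⟩
    by_contra hcon
    push Not at hcon
    exact absurd h (not_lt.2 (cnt_bound b m r hm hr q a s n (by positivity)
      fun h hh => hcon h hh l hl s hs a ha))
  · intro c hc
    refine zd_mono (zd_finset (fun h n => ∃ s : ℕ,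
      (∀ k < s, (n : ℝ) ^ c ≤ ((Co^[k] n : ℕ) : ℝ)) ∧ ∃ a < q,
      ε * Real.log n < ‖cs (pf b m h) q a s n‖) (frq m)
      fun h hh => (final (frq_sac b m hb hco hm hmb hh) q hq ε hε).2 c hc) ?_
    rintro n _ ⟨s, hs, a, ha, r, hr, h⟩
    by_contra hcon
    push Not at hcon
    exact absurd h (not_lt.2 (cnt_bound b m r hm hr q a s n
      (mul_nonneg hε.le (Real.log_natCast_nonneg n))
      fun h hh => hcon h hh s hs a ha))

end Pool.Agent.W5h25.DS
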