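import Mathlib

set_option autoImplicit false

/-! # Short sums along progressions: closure properties and a correlation criterion -/

namespace Pool.Agent.W5h25.DS

open Finset

/-- sums along progressions of length `H` and difference `D` -/
noncomputable def SC (f : ℕ → ℂ) (D H x : ℕ) : ℂ := ∑ i ∈ range H, f (x + D * i)

/-- small short averages along progressions -/
def SAc (f : ℕ → ℂ) : Prop := (∀ n, ‖f n‖ ≤ 1) ∧ ∀ D : ℕ, 0 < D → ∀ η : ℝ, 0 < η →
  ∃ H : ℕ, 1 ≤ H ∧ ∃ N₂ : ℕ, ∀ N ≥ N₂, ∑ x ∈ Ico N (2 * N), ‖SC f D H x‖ ≤ η * H * N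

theorem sum_range_mul' {E : Type*} [AddCommMonoid E] (g : ℕ → E) (q : ℕ) : ∀ H : ℕ,
    ∑ i ∈ range (q * H), g i = ∑ c ∈ range q, ∑ j ∈ range H, g (c + q * j) := by
  intro H
  induction H with
  | zero => simp
  | succ H ih =>
    rw [Nat.mul_succ, sum_range_add, ih, ← sum_add_distrib]
    apply sum_congr rfl
    intro c _
    rw [sum_range_succ, add_comm (q * H) c]

theorem sac_double {f : ℕ → ℂ} (hf : SAc f) : SAc (fun x => f (2 * x)) := by
  refine ⟨fun n => hf.1 _, fun D hD η hη => ?_⟩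
  obtain ⟨H, hH, N₂, hN₂⟩ := hf.2 (2 * D) (by omega) (η / 2) (by positivity)
  refine ⟨H, hH, N₂, fun N hN => ?_⟩
  have e1 : ∀ x, SC (fun x => f (2 * x)) D H x = SC f (2 * D) H (2 * x) := by
    intro x
    unfold SC
    apply sum_congr rfl
    intro i _
    show f (2 * (x + D * i)) = f (2 * x + 2 * D * i)
    congr 1
    ring
  have h1 : ∑ x ∈ Ico N (2 * N), ‖SC (fun x => f (2 * x)) D H x‖ ≤
      ∑ z ∈ Ico (2 * N) (2 * (2 * N)), ‖SC f (2 * D) H z‖ := by
    simp_rw [e1]
    have hinj : Set.InjOn (fun x : ℕ => 2 * x) (Ico N (2 * N) : Finset ℕ) := by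
      intro x _ y _ h
      have : 2 * x = 2 * y := h
      omega
    rw [← sum_image (f := fun z => ‖SC f (2 * D) H z‖) hinj]
    apply sum_le_sum_of_subset_of_nonneg
    · intro z hz
      rw [mem_image] at hz
      obtain ⟨x, hx, rfl⟩ := hz
      rw [mem_Ico] at hx ⊢
      omega
    · intro _ _ _
      exact norm_nonneg _
  refine h1.trans ((hN₂ (2 * N) (by omega)).trans ?_)
  push_cast
  apply le_of_eq
  ring

theorem sac_class {f : ℕ → ℂ} (hf : SAc f) {q : ℕ} (hq : 0 < q) (a : ℕ) :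
    SAc (fun x => if x % q = a then f x else 0) := by
  refine ⟨fun n => ?_, fun D hD η hη => ?_⟩
  · show ‖(if n % q = a then f n else 0 : ℂ)‖ ≤ 1
    by_cases h : n % q = a
    · rw [if_pos h]; exact hf.1 n
    · rw [if_neg h]; simp
  obtain ⟨H', hH', N₂, hN₂⟩ := hf.2 (D * q) (by positivity) (η / 3) (by positivity)
  refine ⟨q * H', Nat.mul_pos hq hH', max N₂ (D * q), fun N hN => ?_⟩
  have hN1 : N₂ ≤ N := (le_max_left _ _).trans hN
  have hN2 : D * q ≤ N := (le_max_right _ _).trans hN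
  set u : ℕ → ℂ := fun x => if x % q = a then f x else 0 with hu
  have e1 : ∀ x, ‖SC u D (q * H') x‖ ≤ ∑ c ∈ range q, ‖SC f (D * q) H' (x + D * c)‖ := by
    intro x
    unfold SC
    rw [sum_range_mul']
    refine (norm_sum_le _ _).trans (sum_le_sum fun c _ => ?_)
    have e2 : ∀ j, u (x + D * (c + q * j)) = if (x + D * c) % q = a then
        f (x + D * c + D * q * j) else 0 := by
      intro j
      rw [hu]
      have h1 : x + D * (c + q * j) = x + D * c + D * q * j := by ring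
      have h2 : (x + D * c + D * q * j) % q = (x + D * c) % q := by
        rw [mul_comm D q, mul_assoc, Nat.add_mul_mod_self_left]
      simp only [h1, h2]
    simp_rw [e2]
    split_ifs
    · exact le_rfl
    · simp
  have h1 : ∑ x ∈ Ico N (2 * N), ‖SC u D (q * H') x‖ ≤
      ∑ c ∈ range q, ∑ z ∈ Ico N (2 * (2 * N)), ‖SC f (D * q) H' z‖ := by
    refine (sum_le_sum fun x _ => e1 x).trans ?_
    rw [sum_comm]
    apply sum_le_sum
    intro c hc
    rw [mem_range] at hc
    have hinj : Set.InjOn (fun x : ℕ => x + D * c) (Ico N (2 * N) : Finset ℕ) := by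
      intro x _ y _ h
      have : x + D * c = y + D * c := h
      omega
    rw [← sum_image (f := fun z => ‖SC f (D * q) H' z‖) hinj]
    apply sum_le_sum_of_subset_of_nonneg
    · intro z hz
      rw [mem_image] at hz
      obtain ⟨x, hx, rfl⟩ := hz
      rw [mem_Ico] at hx ⊢
      have : D * c ≤ D * q := Nat.mul_le_mul_left _ hc.le
      constructor <;> omega
    · intro _ _ _
      exact norm_nonneg _
  refine h1.trans ?_
  rw [sum_const, card_range, nsmul_eq_mul]
  rw [← sum_Ico_consecutive _ (show N ≤ 2 * N by omega) (show 2 * N ≤ 2 * (2 * N) by omega)]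
  have h2 := hN₂ N hN1
  have h3 := hN₂ (2 * N) (by omega)
  push_cast at h3 ⊢
  have h4 : (∑ z ∈ Ico N (2 * N), ‖SC f (D * q) H' z‖ +
      ∑ z ∈ Ico (2 * N) (2 * (2 * N)), ‖SC f (D * q) H' z‖) ≤ η * H' * N := by linarith
  calc (q : ℝ) * (∑ z ∈ Ico N (2 * N), ‖SC f (D * q) H' z‖ +
      ∑ z ∈ Ico (2 * N) (2 * (2 * N)), ‖SC f (D * q) H' z‖) ≤ q * (η * H' * N) :=
        mul_le_mul_of_nonneg_left h4 (Nat.cast_nonneg _)
    _ = η * (q * H') * N := by ring

/-- a bound for the correlation with difference `r` -/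
def Cor (f : ℕ → ℂ) (r : ℕ) (β : ℝ) : Prop :=
  ∃ N₀ : ℕ, ∀ N ≥ N₀, ‖∑ y ∈ Ico N (2 * N), f (y + r) * star (f y)‖ ≤ β * N

/-- sums over shifted intervals -/
theorem sum_shift {u : ℕ → ℂ} (hu : ∀ n, ‖u n‖ ≤ 1) (N c : ℕ) :
    ‖∑ x ∈ Ico N (2 * N), u (x + c) - ∑ y ∈ Ico N (2 * N), u y‖ ≤ 2 * c := by
  have e1 : ∑ x ∈ Ico N (2 * N), u (x + c) = ∑ y ∈ Ico (N + c) (2 * N + c), u y := by
    rw [sum_Ico_add']
  have e2 : ∑ y ∈ Ico (N + c) (2 * N + c), u y - ∑ y ∈ Ico N (2 * N), u y =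
      ∑ y ∈ Ico (2 * N) (2 * N + c), u y - ∑ y ∈ Ico N (N + c), u y := by
    have h1 := sum_Ico_consecutive u (show N ≤ N + c by omega) (show N + c ≤ 2 * N + c by omega)
    have h2 := sum_Ico_consecutive u (show N ≤ 2 * N by omega) (show 2 * N ≤ 2 * N + c by omega)
    linear_combination h1 - h2
  have h3 : ∀ a : ℕ, ‖∑ y ∈ Ico a (a + c), u y‖ ≤ c := by
    intro a
    refine (norm_sum_le _ _).trans ?_
    calc ∑ y ∈ Ico a (a + c), ‖u y‖ ≤ ∑ _y ∈ Ico a (a + c), (1 : ℝ) := sum_le_sum fun _ _ => hu _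
      _ = c := by simp
  rw [e1, e2]
  refine (norm_sub_le _ _).trans ?_
  have := h3 (2 * N)
  have := h3 N
  linarith

theorem row {β : ℕ → ℝ} {D H : ℕ} (hD : 0 < D) (hβ : ∀ r < D * H, 0 ≤ β r) (i : ℕ) (hi : i < H) :
    ∑ j ∈ range H, β (D * ((i - j) + (j - i))) ≤ 2 * ∑ t ∈ range (D * H), β t := by
  have key : ∀ (s : Finset ℕ) (σ : ℕ → ℕ), (∀ j ∈ s, σ j < H) → Set.InjOn σ (s : Set ℕ) →
      ∑ j ∈ s, β (D * σ j) ≤ ∑ t ∈ range (D * H), β t := by
    intro s σ h1 h2
    have hinj : Set.InjOn (fun j => D * σ j) (s : Set ℕ) := by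
      intro x hx y hy h
      exact h2 hx hy (Nat.eq_of_mul_eq_mul_left hD h)
    rw [← sum_image (f := β) hinj]
    apply sum_le_sum_of_subset_of_nonneg
    · intro z hz
      rw [mem_image] at hz
      obtain ⟨x, hx, rfl⟩ := hz
      rw [mem_range]
      exact Nat.mul_lt_mul_of_pos_left (h1 x hx) hD
    · intro t ht _
      exact hβ t (mem_range.1 ht)
  rw [← sum_filter_add_sum_filter_not (range H) (fun j => j ≤ i)]
  have h1 : ∑ j ∈ (range H).filter (fun j => j ≤ i), β (D * ((i - j) + (j - i))) ≤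
      ∑ t ∈ range (D * H), β t := by
    apply key
    · intro j hj
      rw [mem_filter, mem_range] at hj
      omega
    · intro x hx y hy h
      rw [mem_coe, mem_filter, mem_range] at hx hy
      simp only at h
      omega
  have h2 : ∑ j ∈ (range H).filter (fun j => ¬ j ≤ i), β (D * ((i - j) + (j - i))) ≤
      ∑ t ∈ range (D * H), β t := by
    apply key
    · intro j hj
      rw [mem_filter, mem_range] at hj
      omega
    · intro x hx y hy h
      rw [mem_coe, mem_filter, mem_range] at hx hy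
      simp only at h
      omega
  linarith

/-- THE CORRELATION CRITERION -/
theorem criterion {f : ℕ → ℂ} (hf : ∀ n, ‖f n‖ ≤ 1)
    (h : ∀ η : ℝ, 0 < η → ∃ T₀ : ℕ, ∀ T ≥ T₀, ∃ β : ℕ → ℝ, (∀ r < T, 0 ≤ β r ∧ Cor f r (β r)) ∧
      ∑ r ∈ range T, β r ≤ η * T) : SAc f := by
  refine ⟨hf, fun D hD η hη => ?_⟩
  have hD0 : (0 : ℝ) < D := by exact_mod_cast hD
  obtain ⟨T₀, hT₀⟩ := h (η ^ 2 / (4 * D)) (by positivity)
  set H : ℕ := max T₀ 1 with hH
  have hH1 : 1 ≤ H := le_max_right _ _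
  have hH0 : (1 : ℝ) ≤ H := by exact_mod_cast hH1
  obtain ⟨β, hβ, hsum⟩ := hT₀ (D * H) ((le_max_left _ _).trans (Nat.le_mul_of_pos_left _ hD))
  choose! hβ0 hcor using hβ
  choose! N₀ hN₀ using hcor
  obtain ⟨M, hM⟩ : ∃ M : ℕ, ∀ r < D * H, N₀ r ≤ M :=
    ⟨(range (D * H)).sup N₀, fun r hr => le_sup (f := N₀) (mem_range.2 hr)⟩
  obtain ⟨M₁, hM₁⟩ := exists_nat_ge (4 * (D * H : ℝ) / η ^ 2)
  refine ⟨H, hH1, max M M₁, fun N hN => ?_⟩
  have hNM : M ≤ N := (le_max_left _ _).trans hN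
  have hNM₁ : 4 * (D * H : ℝ) ≤ η ^ 2 * N := by
    have h1 : 4 * (D * H : ℝ) / η ^ 2 ≤ N := hM₁.trans (by exact_mod_cast (le_max_right _ _).trans hN)
    rw [div_le_iff₀ (by positivity)] at h1
    linarith
  -- one pair
  have pair : ∀ i < H, ∀ j < H, ‖∑ x ∈ Ico N (2 * N), f (x + D * i) * star (f (x + D * j))‖ ≤
      β (D * ((i - j) + (j - i))) * N + 2 * (D * H) := by
    have main : ∀ i < H, ∀ j ≤ i, ‖∑ x ∈ Ico N (2 * N), f (x + D * i) * star (f (x + D * j))‖ ≤
        β (D * ((i - j) + (j - i))) * N + 2 * (D * H) := by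
      intro i hi j hj
      have e1 : (i - j) + (j - i) = i - j := by omega
      rw [e1]
      have e2 : ∀ x, f (x + D * i) * star (f (x + D * j)) =
          (fun y => f (y + D * (i - j)) * star (f y)) (x + D * j) := by
        intro x
        simp only
        congr 2
        have : D * i = D * j + D * (i - j) := by
          rw [← mul_add]; congr 1; omega
        omega
      simp_rw [e2]
      have h1 := sum_shift (u := fun y => f (y + D * (i - j)) * star (f y)) (fun n => by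
        rw [norm_mul, norm_star]
        exact mul_le_one₀ (hf _) (norm_nonneg _) (hf _)) N (D * j)
      have hr : D * (i - j) < D * H := Nat.mul_lt_mul_of_pos_left (by omega) hD
      have h2 := hN₀ (D * (i - j)) hr N ((hM _ hr).trans hNM)
      have h3 : ((D * j : ℕ) : ℝ) ≤ D * H := by
        rw [Nat.cast_mul]
        have : (j : ℝ) ≤ H := by exact_mod_cast (hj.trans hi.le)
        gcongr
      have h4 := norm_le_norm_add_norm_sub' (∑ x ∈ Ico N (2 * N),
        (fun y => f (y + D * (i - j)) * star (f y)) (x + D * j))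
        (∑ y ∈ Ico N (2 * N), f (y + D * (i - j)) * star (f y))
      linarith
    intro i hi j hj
    rcases le_total j i with hji | hji
    · exact main i hi j hji
    · have h1 := main j hj i hji
      have e1 : (i - j) + (j - i) = (j - i) + (i - j) := by omega
      rw [e1]
      refine le_trans (le_of_eq ?_) h1
      rw [← norm_star, star_sum]
      congr 1
      apply sum_congr rfl
      intro x _
      rw [star_mul, star_star]
  -- the quadratic mean
  have hsq : ∑ x ∈ Ico N (2 * N), ‖SC f D H x‖ ^ 2 ≤ η ^ 2 * H ^ 2 * N := by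
    have e1 : ((∑ x ∈ Ico N (2 * N), ‖SC f D H x‖ ^ 2 : ℝ) : ℂ) =
        ∑ i ∈ range H, ∑ j ∈ range H, ∑ x ∈ Ico N (2 * N), f (x + D * i) * star (f (x + D * j)) := by
      push_cast
      have e2 : ∀ x, ((‖SC f D H x‖ : ℂ)) ^ 2 = ∑ i ∈ range H, ∑ j ∈ range H,
          f (x + D * i) * star (f (x + D * j)) := by
        intro x
        rw [← Complex.mul_conj']
        unfold SC
        rw [map_sum, sum_mul_sum]
        rfl
      simp_rw [e2]
      rw [sum_comm]
      apply sum_congr rfl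
      intro i _
      rw [sum_comm]
    have e3 : ∑ x ∈ Ico N (2 * N), ‖SC f D H x‖ ^ 2 = ‖((∑ x ∈ Ico N (2 * N), ‖SC f D H x‖ ^ 2 : ℝ) : ℂ)‖ := by
      rw [Complex.norm_real, Real.norm_of_nonneg]
      exact sum_nonneg fun _ _ => by positivity
    rw [e3, e1]
    have h1 : ‖∑ i ∈ range H, ∑ j ∈ range H, ∑ x ∈ Ico N (2 * N),
        f (x + D * i) * star (f (x + D * j))‖ ≤
        ∑ i ∈ range H, ∑ j ∈ range H, (β (D * ((i - j) + (j - i))) * N + 2 * (D * H)) := by
      refine (norm_sum_le _ _).trans (sum_le_sum fun i hi => ?_)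
      exact (norm_sum_le _ _).trans (sum_le_sum fun j hj => pair i (mem_range.1 hi) j (mem_range.1 hj))
    refine h1.trans ?_
    have h2 : ∀ i ∈ range H, ∑ j ∈ range H, (β (D * ((i - j) + (j - i))) * N + 2 * (D * H)) ≤
        2 * (η ^ 2 / (4 * D) * (D * H)) * N + H * (2 * (D * H)) := by
      intro i hi
      rw [sum_add_distrib, ← sum_mul, sum_const, card_range, nsmul_eq_mul]
      have h3 := row hD hβ0 i (mem_range.1 hi)
      have h4 : ∑ t ∈ range (D * H), β t ≤ η ^ 2 / (4 * D) * (D * H) := by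
        have := hsum
        push_cast at this
        exact this
      have h5 : ∑ j ∈ range H, β (D * ((i - j) + (j - i))) ≤ 2 * (η ^ 2 / (4 * D) * (D * H)) := by
        linarith
      have h6 := mul_le_mul_of_nonneg_right h5 (Nat.cast_nonneg N : (0 : ℝ) ≤ N)
      linarith
    refine (sum_le_sum h2).trans ?_
    rw [sum_const, card_range, nsmul_eq_mul]
    have h7 : 2 * (η ^ 2 / (4 * D) * (D * H)) * (N : ℝ) = η ^ 2 * H * N / 2 := by
      field_simp
      ring
    rw [h7]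
    have h8 : (H : ℝ) * (2 * (D * H)) ≤ η ^ 2 * H * N / 2 := by
      have : (H : ℝ) * (4 * (D * H)) ≤ H * (η ^ 2 * N) := mul_le_mul_of_nonneg_left hNM₁ (by linarith)
      linarith
    calc (H : ℝ) * (η ^ 2 * H * N / 2 + H * (2 * (D * H))) ≤
        H * (η ^ 2 * H * N / 2 + η ^ 2 * H * N / 2) := by gcongr
      _ = η ^ 2 * H ^ 2 * N := by ring
  have hcs := sq_sum_le_card_mul_sum_sq (s := Ico N (2 * N)) (f := fun x => ‖SC f D H x‖)
  rw [Nat.card_Ico] at hcs
  have e4 : 2 * N - N = N := by omega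
  rw [e4] at hcs
  have h9 : (∑ x ∈ Ico N (2 * N), ‖SC f D H x‖) ^ 2 ≤ (η * H * N) ^ 2 := by
    refine hcs.trans ?_
    calc (N : ℝ) * ∑ x ∈ Ico N (2 * N), ‖SC f D H x‖ ^ 2 ≤ N * (η ^ 2 * H ^ 2 * N) :=
          mul_le_mul_of_nonneg_left hsq (Nat.cast_nonneg _)
      _ = (η * H * N) ^ 2 := by ring
  exact abs_le_of_sq_le_sq' h9 (by positivity) |>.2

/-- sums of periodic functions -/
theorem periodic_sum {g : ℕ → ℂ} {P : ℕ} (hP : 0 < P) (hg : ∀ y, g (y + P) = g y)
    (h1 : ∀ y, ‖g y‖ ≤ 1) (a n : ℕ) :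
    ‖∑ y ∈ Ico a (a + n), g y‖ ≤ n / P * ‖∑ y ∈ range P, g y‖ + P := by
  have e1 : ∀ a, ∑ y ∈ Ico a (a + P), g y = ∑ y ∈ range P, g y := by
    intro a
    induction a with
    | zero => rw [zero_add, range_eq_Ico]
    | succ a ih =>
      rw [← ih]
      have h2 := sum_eq_sum_Ico_succ_bot (show a < a + P by omega) g
      have h3 := sum_Ico_succ_top (show a + 1 ≤ a + P by omega) g
      have e2 : a + 1 + P = a + P + 1 := by ring
      rw [e2, h3, h2, hg, add_comm]
  have e2 : ∀ p a, ∑ y ∈ Ico a (a + p * P), g y = p * ∑ y ∈ range P, g y := by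
    intro p
    induction p with
    | zero => intro a; simp
    | succ p ih =>
      intro a
      rw [← sum_Ico_consecutive g (show a ≤ a + p * P by omega)
        (show a + p * P ≤ a + (p + 1) * P by rw [add_mul]; omega), ih]
      have : a + (p + 1) * P = a + p * P + P := by ring
      rw [this, e1]
      push_cast
      ring
  obtain ⟨p, s, hs, hn⟩ : ∃ p s, s < P ∧ n = p * P + s :=
    ⟨n / P, n % P, Nat.mod_lt _ hP, by rw [mul_comm]; exact (Nat.div_add_mod n P).symm⟩
  have e3 : ∑ y ∈ Ico a (a + n), g y = p * ∑ y ∈ range P, g y + ∑ y ∈ Ico (a + p * P) (a + n), g y := by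
    rw [← e2 p a, sum_Ico_consecutive g (by omega) (by omega)]
  have h4 : ‖∑ y ∈ Ico (a + p * P) (a + n), g y‖ ≤ P := by
    refine (norm_sum_le _ _).trans ?_
    calc ∑ y ∈ Ico (a + p * P) (a + n), ‖g y‖ ≤ ∑ _y ∈ Ico (a + p * P) (a + n), (1 : ℝ) :=
          sum_le_sum fun _ _ => h1 _
      _ = ((a + n - (a + p * P) : ℕ) : ℝ) := by simp
      _ ≤ P := by
          have : a + n - (a + p * P) ≤ P := by omega
          exact_mod_cast this
  have h5 : (p : ℝ) ≤ n / P := by
    rw [le_div_iff₀ (by exact_mod_cast hP)]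
    have : p * P ≤ n := by omega
    exact_mod_cast this
  rw [e3]
  refine (norm_add_le _ _).trans (add_le_add ?_ h4)
  rw [norm_mul, Complex.norm_natCast]
  exact mul_le_mul_of_nonneg_right h5 (norm_nonneg _)

end Pool.Agent.W5h25.DS
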