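import Pool.Agent.W5h25.DS.A

set_option autoImplicit false

/-! # Correlations of strongly multiplicative functions -/

namespace Pool.Agent.W5h25.DS

open Finset

/-- strongly `b`-multiplicative functions of modulus one -/
def SM (b : ℕ) (f : ℕ → ℂ) : Prop := (∀ n, ‖f n‖ = 1) ∧ ∀ n d, d < b → f (b * n + d) = f n * f d

theorem sm_ne {b : ℕ} {f : ℕ → ℂ} (h : SM b f) (n : ℕ) : f n ≠ 0 := by
  intro h0
  have := h.1 n
  rw [h0, norm_zero] at this
  exact zero_ne_one this

theorem sm_zero {b : ℕ} {f : ℕ → ℂ} (hb : 2 ≤ b) (h : SM b f) : f 0 = 1 := by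
  have h1 := h.2 0 0 (by omega)
  rw [mul_zero, add_zero] at h1
  exact (mul_eq_left₀ (sm_ne h 0)).1 h1.symm

theorem sm_pow {b : ℕ} {f : ℕ → ℂ} (hb : 2 ≤ b) (h : SM b f) : ∀ k, SM (b ^ k) f := by
  intro k
  induction k with
  | zero =>
    refine ⟨h.1, fun n d hd => ?_⟩
    have : d = 0 := by rw [pow_zero] at hd; omega
    rw [this, sm_zero hb h, pow_zero, one_mul, add_zero, mul_one]
  | succ k ih =>
    refine ⟨h.1, fun n d hd => ?_⟩
    have hb0 : 0 < b := by omega
    have h1 : d / b < b ^ k := by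
      rw [Nat.div_lt_iff_lt_mul hb0]
      rwa [pow_succ] at hd
    have h2 : d = b * (d / b) + d % b := (Nat.div_add_mod d b).symm
    have h3 : b ^ (k + 1) * n + d = b * (b ^ k * n + d / b) + d % b := by
      conv_lhs => rw [h2]
      ring
    rw [h3, h.2 _ _ (Nat.mod_lt _ hb0), ih.2 _ _ h1]
    conv_rhs => rw [h2, h.2 _ _ (Nat.mod_lt _ hb0)]
    ring

/-- `f` is a character -/
def IsChar (f : ℕ → ℂ) : Prop := ∃ κ : ℂ, ∀ n, f n = κ ^ n

theorem char_of {b : ℕ} {f : ℕ → ℂ} (hb : 2 ≤ b) (h : SM b f) {κ : ℂ} (hκ : ∀ i ≤ b, f i = κ ^ i) :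
    IsChar f := by
  have h1 : κ ^ b = κ := by
    have h2 := h.2 1 0 (by omega)
    rw [mul_one, add_zero, sm_zero hb h, mul_one, hκ b le_rfl, hκ 1 (by omega), pow_one] at h2
    exact h2
  refine ⟨κ, fun n => ?_⟩
  induction n using Nat.strong_induction_on with
  | _ n ih =>
    rcases Nat.lt_or_ge n b with h2 | h2
    · exact hκ n h2.le
    · have h3 : n / b < n := Nat.div_lt_self (by omega) (by omega)
      have h4 : n = b * (n / b) + n % b := (Nat.div_add_mod n b).symm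
      have h5 : n % b < b := Nat.mod_lt _ (by omega)
      conv_lhs => rw [h4, h.2 _ _ h5, ih _ h3, hκ _ h5.le]
      conv_rhs => rw [h4, pow_add, pow_mul, h1]

theorem unit_pair {z w : ℂ} (hz : ‖z‖ = 1) (hw : ‖w‖ = 1) (hne : z ≠ w) : ‖z + w‖ < 2 := by
  have h1 := parallelogram_law_with_norm ℝ z w
  rw [hz, hw] at h1
  have h2 : 0 < ‖z - w‖ := norm_pos_iff.2 (sub_ne_zero.2 hne)
  by_contra h3
  push Not at h3
  nlinarith [norm_nonneg (z + w)]

theorem sum_lt {n : ℕ} {w : ℕ → ℂ} (hw : ∀ i, ‖w i‖ = 1) {i j : ℕ} (hi : i < n) (hj : j < n)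
    (hne : w i ≠ w j) : ‖∑ i ∈ range n, w i‖ < n := by
  have hij : i ≠ j := fun h => hne (by rw [h])
  have h1 : ∑ k ∈ range n, w k = (w i + w j) + ∑ k ∈ ((range n).erase i).erase j, w k := by
    rw [← add_sum_erase (range n) w (mem_range.2 hi),
      ← add_sum_erase ((range n).erase i) w (mem_erase.2 ⟨hij.symm, mem_range.2 hj⟩)]
    ring
  have h2 : ‖∑ k ∈ ((range n).erase i).erase j, w k‖ ≤ n - 2 := by
    refine (norm_sum_le _ _).trans (le_of_eq ?_)
    calc ∑ k ∈ ((range n).erase i).erase j, ‖w k‖ = ∑ k ∈ ((range n).erase i).erase j, (1 : ℝ) :=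
          sum_congr rfl fun k _ => hw k
      _ = ((n - 2 : ℕ) : ℝ) := by
          rw [sum_const, nsmul_eq_mul, mul_one, card_erase_of_mem (mem_erase.2 ⟨hij.symm, mem_range.2 hj⟩),
            card_erase_of_mem (mem_range.2 hi), card_range]
          congr 1
      _ = n - 2 := by
          rw [Nat.cast_sub (by omega)]
          norm_num
  rw [h1]
  have h3 := norm_add_le (w i + w j) (∑ k ∈ ((range n).erase i).erase j, w k)
  have h4 := unit_pair (hw i) (hw j) hne
  linarith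

theorem star_mul_self' {z : ℂ} (h : ‖z‖ = 1) : star z * z = 1 := by
  have h1 := Complex.conj_mul' z
  rw [h] at h1
  simpa using h1

/-- the differences with step one are not constant -/
theorem step_one {b : ℕ} {f : ℕ → ℂ} (hb : 2 ≤ b) (h : SM b f) (hc : ¬ IsChar f) {B : ℕ} (hB : b + 1 ≤ B) :
    ∃ i < B - 1, f (i + 1) * star (f i) ≠ f (0 + 1) * star (f 0) := by
  by_contra hcon
  push Not at hcon
  apply hc
  apply char_of hb h (κ := f 1)
  have h0 := sm_zero hb h
  have key : ∀ i, i ≤ B - 1 → f i = f 1 ^ i := by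
    intro i
    induction i with
    | zero => intro _; rw [h0, pow_zero]
    | succ i ih =>
      intro hi
      have h1 := hcon i (by omega)
      rw [h0, star_one, mul_one, zero_add] at h1
      calc f (i + 1) = f (i + 1) * (star (f i) * f i) := by rw [star_mul_self' (h.1 i), mul_one]
        _ = (f (i + 1) * star (f i)) * f i := by ring
        _ = f 1 * f 1 ^ i := by rw [h1, ih (by omega)]
        _ = f 1 ^ (i + 1) := by ring
  exact fun i hi => key i (by omega)

/-- the differences with step two are not constant -/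
theorem step_two {b : ℕ} {f : ℕ → ℂ} (hb : 2 ≤ b) (h : SM b f) (hc : ¬ IsChar f) {B : ℕ}
    (hB : 2 * b + 1 ≤ B) : ∃ i < B - 2, f (i + 2) * star (f i) ≠ f (0 + 2) * star (f 0) := by
  by_contra hcon
  push Not at hcon
  apply hc
  have h0 := sm_zero hb h
  have hrec : ∀ i, i + 2 ≤ B - 1 → f (i + 2) = f 2 * f i := by
    intro i hi
    have h1 := hcon i (by omega)
    rw [h0, star_one, mul_one, zero_add] at h1
    calc f (i + 2) = f (i + 2) * (star (f i) * f i) := by rw [star_mul_self' (h.1 i), mul_one]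
      _ = (f (i + 2) * star (f i)) * f i := by ring
      _ = f 2 * f i := by rw [h1]
  have hev : ∀ j, 2 * j ≤ B - 1 → f (2 * j) = f 2 ^ j := by
    intro j
    induction j with
    | zero => intro _; rw [mul_zero, h0, pow_zero]
    | succ j ih =>
      intro hj
      have e : 2 * (j + 1) = 2 * j + 2 := by ring
      rw [e, hrec _ (by omega), ih (by omega)]
      ring
  have hod : ∀ j, 2 * j + 1 ≤ B - 1 → f (2 * j + 1) = f 2 ^ j * f 1 := by
    intro j
    induction j with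
    | zero => intro _; rw [mul_zero, zero_add, pow_zero, one_mul]
    | succ j ih =>
      intro hj
      have e : 2 * (j + 1) + 1 = (2 * j + 1) + 2 := by ring
      rw [e, hrec _ (by omega), ih (by omega)]
      ring
  have fb : f b = f 1 := by
    have := h.2 1 0 (by omega)
    rwa [mul_one, add_zero, h0, mul_one] at this
  have f2b : f (2 * b) = f 2 := by
    have := h.2 2 0 (by omega)
    rwa [add_zero, h0, mul_one, mul_comm b 2] at this
  have k1 : f 2 ^ b = f 2 := by rw [← hev b (by omega), f2b]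
  have k2 : f 1 ^ 2 = f 2 := by
    rcases Nat.even_or_odd' b with ⟨c, hc' | hc'⟩
    · have h1 : f 2 ^ c = f 1 := by rw [← hev c (by omega), ← hc', fb]
      rw [← h1, ← pow_mul, mul_comm c 2, ← hc', k1]
    · have h1 : f 2 ^ c = 1 := by
        have h2 := hod c (by omega)
        rw [← hc', fb] at h2
        exact (mul_eq_right₀ (sm_ne h 1)).1 h2.symm
      have h3 := h.2 1 1 (by omega)
      have h4 : b * 1 + 1 = 2 * (c + 1) := by omega
      rw [h4, hev (c + 1) (by omega), pow_succ, h1, one_mul] at h3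
      rw [h3]
      ring
  apply char_of hb h (κ := f 1)
  intro i hi
  rcases Nat.even_or_odd' i with ⟨j, hj | hj⟩
  · rw [hj, hev j (by omega), ← k2, ← pow_mul]
  · rw [hj, hod j (by omega), ← k2, ← pow_mul, ← pow_succ]

/-- the correlation sums -/
noncomputable def C (f : ℕ → ℂ) (B k r : ℕ) : ℂ := ∑ z ∈ range (B ^ k), f (z + r) * star (f z)

noncomputable def Ac (f : ℕ → ℂ) (B t : ℕ) : ℂ := ∑ i ∈ range (B - t), f (i + t) * star (f i)

noncomputable def Bc (f : ℕ → ℂ) (B t : ℕ) : ℂ := ∑ i ∈ Ico (B - t) B, f (i + t - B) * star (f i)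

theorem C_rec {B : ℕ} {f : ℕ → ℂ} (hB : 0 < B) (h : SM B f) (k r : ℕ) {t : ℕ} (ht : t < B) :
    C f B (k + 1) (B * r + t) = Ac f B t * C f B k r + Bc f B t * C f B k (r + 1) := by
  unfold C
  rw [pow_succ', sum_range_mul']
  have e1 : ∀ c ∈ range B, ∑ j ∈ range (B ^ k), f (c + B * j + (B * r + t)) * star (f (c + B * j)) =
      if c < B - t then f (c + t) * star (f c) * C f B k r else
        f (c + t - B) * star (f c) * C f B k (r + 1) := by
    intro c hc
    rw [mem_range] at hc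
    have e2 : ∀ j, star (f (c + B * j)) = star (f j) * star (f c) := by
      intro j
      rw [add_comm, h.2 _ _ hc, star_mul']
    split_ifs with hct
    · unfold C
      rw [mul_sum]
      apply sum_congr rfl
      intro j _
      have e3 : c + B * j + (B * r + t) = B * (j + r) + (c + t) := by ring
      rw [e2, e3, h.2 _ _ (by omega)]
      ring
    · unfold C
      rw [mul_sum]
      apply sum_congr rfl
      intro j _
      have e3 : c + B * j + (B * r + t) = B * (j + (r + 1)) + (c + t - B) := by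
        have : B * (j + (r + 1)) = B * j + B * r + B := by ring
        omega
      rw [e2, e3, h.2 _ _ (by omega)]
      ring
  rw [sum_congr rfl e1]
  have e4 : range B = Ico 0 B := range_eq_Ico B
  rw [e4, ← sum_Ico_consecutive _ (Nat.zero_le (B - t)) (Nat.sub_le B t)]
  congr 1
  · unfold Ac
    rw [← range_eq_Ico, sum_mul]
    apply sum_congr rfl
    intro c hc
    rw [if_pos (mem_range.1 hc)]
    rfl
  · unfold Bc
    rw [sum_mul]
    apply sum_congr rfl
    intro c hc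
    rw [mem_Ico] at hc
    rw [if_neg (by omega)]
    rfl

theorem Ac_le {b B : ℕ} {f : ℕ → ℂ} (h : SM b f) {t : ℕ} (ht : t ≤ B) : ‖Ac f B t‖ ≤ B - t := by
  unfold Ac
  refine (norm_sum_le _ _).trans ?_
  calc ∑ i ∈ range (B - t), ‖f (i + t) * star (f i)‖ = ∑ _i ∈ range (B - t), (1 : ℝ) :=
        sum_congr rfl fun i _ => by rw [norm_mul, norm_star, h.1, h.1, mul_one]
    _ = ((B - t : ℕ) : ℝ) := by simp
    _ ≤ B - t := by rw [Nat.cast_sub ht]

theorem Bc_le {b B : ℕ} {f : ℕ → ℂ} (h : SM b f) {t : ℕ} (ht : t ≤ B) : ‖Bc f B t‖ ≤ t := by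
  unfold Bc
  refine (norm_sum_le _ _).trans ?_
  calc ∑ i ∈ Ico (B - t) B, ‖f (i + t - B) * star (f i)‖ = ∑ _i ∈ Ico (B - t) B, (1 : ℝ) :=
        sum_congr rfl fun i _ => by rw [norm_mul, norm_star, h.1, h.1, mul_one]
    _ = ((B - (B - t) : ℕ) : ℝ) := by simp
    _ ≤ t := by
        have : B - (B - t) ≤ t := by omega
        exact_mod_cast this

/-- the larger of two consecutive correlation sums -/
noncomputable def mx (f : ℕ → ℂ) (B k r : ℕ) : ℝ := max ‖C f B k r‖ ‖C f B k (r + 1)‖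

theorem mx_nonneg (f : ℕ → ℂ) (B k r : ℕ) : 0 ≤ mx f B k r := (norm_nonneg _).trans (le_max_left _ _)

theorem C_step {B : ℕ} {f : ℕ → ℂ} (hB : 0 < B) (h : SM B f) (k r : ℕ) {t : ℕ} (ht : t < B) {δ : ℝ}
    (hA : ‖Ac f B t‖ ≤ B - t - δ) :
    ‖C f B (k + 1) (B * r + t)‖ ≤ (B - δ) * mx f B k r := by
  rw [C_rec hB h k r ht]
  refine (norm_add_le _ _).trans ?_
  rw [norm_mul, norm_mul]
  have h1 : ‖C f B k r‖ ≤ mx f B k r := le_max_left _ _
  have h2 : ‖C f B k (r + 1)‖ ≤ mx f B k r := le_max_right _ _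
  have h3 := Bc_le h ht.le
  have h4 : (0 : ℝ) ≤ B - t - δ := (norm_nonneg _).trans hA
  calc ‖Ac f B t‖ * ‖C f B k r‖ + ‖Bc f B t‖ * ‖C f B k (r + 1)‖ ≤
      (B - t - δ) * mx f B k r + t * mx f B k r := by gcongr
    _ = (B - δ) * mx f B k r := by ring

theorem mx_step {B : ℕ} {f : ℕ → ℂ} (hB : 0 < B) (h : SM B f) (k r : ℕ) {t : ℕ} (ht : t < B) :
    mx f B (k + 1) (B * r + t) ≤ B * mx f B k r := by
  have key : ∀ t < B, ‖C f B (k + 1) (B * r + t)‖ ≤ B * mx f B k r := by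
    intro t ht
    have h1 := C_step hB h k r ht (δ := 0) (by rw [sub_zero]; exact Ac_le h ht.le)
    rwa [sub_zero] at h1
  apply max_le (key t ht)
  rcases Nat.lt_or_ge (t + 1) B with h1 | h1
  · exact key (t + 1) h1
  · have e1 : B * r + t + 1 = B * (r + 1) + 0 := by
      have : t + 1 = B := by omega
      rw [add_assoc, this]
      ring
    rw [e1, C_rec hB h k (r + 1) hB]
    have e2 : Bc f B 0 = 0 := by unfold Bc; simp
    rw [e2, zero_mul, add_zero, norm_mul]
    have h2 := Ac_le h (B := B) (Nat.zero_le B)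
    have h3 : ‖C f B k (r + 1)‖ ≤ mx f B k r := le_max_right _ _
    have h4 : ‖Ac f B 0‖ ≤ B := by simpa using h2
    have h5 := mx_nonneg f B k r
    gcongr

theorem mx_step_one {B : ℕ} {f : ℕ → ℂ} (hB : 3 ≤ B) (h : SM B f) (k r : ℕ) {δ : ℝ}
    (h1 : ‖Ac f B 1‖ ≤ B - 1 - δ) (h2 : ‖Ac f B 2‖ ≤ B - 2 - δ) :
    mx f B (k + 1) (B * r + 1) ≤ (B - δ) * mx f B k r := by
  apply max_le
  · exact C_step (by omega) h k r (by omega) (by exact_mod_cast h1)
  · exact C_step (by omega) h k r (t := 2) (by omega) (by exact_mod_cast h2)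

theorem mx_sum {B : ℕ} {f : ℕ → ℂ} (hB : 3 ≤ B) (h : SM B f) {δ : ℝ} (hδ : δ ≤ B)
    (h1 : ‖Ac f B 1‖ ≤ B - 1 - δ) (h2 : ‖Ac f B 2‖ ≤ B - 2 - δ) (k : ℕ) : ∀ n : ℕ,
    ∑ r ∈ range (B ^ n), mx f B (k + n) r ≤ ((B : ℝ) ^ 2 - δ) ^ n * B ^ k := by
  have hB0 : 0 < B := by omega
  have hBr : (3 : ℝ) ≤ B := by exact_mod_cast hB
  intro n
  induction n with
  | zero =>
    rw [pow_zero, pow_zero, one_mul, range_one, sum_singleton, add_zero]
    have key : ∀ r, ‖C f B k r‖ ≤ (B : ℝ) ^ k := by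
      intro r
      unfold C
      refine (norm_sum_le _ _).trans (le_of_eq ?_)
      calc ∑ z ∈ range (B ^ k), ‖f (z + r) * star (f z)‖ = ∑ _z ∈ range (B ^ k), (1 : ℝ) :=
            sum_congr rfl fun i _ => by rw [norm_mul, norm_star, h.1, h.1, mul_one]
        _ = (B : ℝ) ^ k := by simp
    exact max_le (key _) (key _)
  | succ n ih =>
    rw [pow_succ', sum_range_mul', sum_comm]
    have h3 : ∀ r ∈ range (B ^ n), ∑ t ∈ range B, mx f B (k + (n + 1)) (t + B * r) ≤
        ((B : ℝ) ^ 2 - δ) * mx f B (k + n) r := by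
      intro r _
      have h4 : ∀ t ∈ range B, mx f B (k + (n + 1)) (t + B * r) ≤
          (if t = 1 then (B - δ) else (B : ℝ)) * mx f B (k + n) r := by
        intro t ht
        have e1 : k + (n + 1) = k + n + 1 := by ring
        rw [add_comm t, e1]
        split_ifs with ht1
        · rw [ht1]
          exact mx_step_one hB h _ _ h1 h2
        · exact mx_step hB0 h _ _ (mem_range.1 ht)
      refine (sum_le_sum h4).trans ?_
      rw [← sum_mul]
      apply mul_le_mul_of_nonneg_right _ (mx_nonneg _ _ _ _)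
      have e2 : ∀ t, (if t = 1 then (B - δ) else (B : ℝ)) = B - (if t = 1 then δ else 0) := by
        intro t
        split_ifs <;> ring
      simp_rw [e2]
      rw [sum_sub_distrib, sum_ite_eq', if_pos (mem_range.2 (by omega)), sum_const, card_range,
        nsmul_eq_mul]
      apply le_of_eq
      ring
    refine (sum_le_sum h3).trans ?_
    have e5 : ((B : ℝ) ^ 2 - δ) ^ (n + 1) * B ^ k = ((B : ℝ) ^ 2 - δ) * (((B : ℝ) ^ 2 - δ) ^ n * B ^ k) := by
      ring
    rw [← mul_sum, e5]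
    apply mul_le_mul_of_nonneg_left ih
    nlinarith

/-- THE MEAN OF THE CORRELATIONS -/
theorem mean_cor {b : ℕ} {f : ℕ → ℂ} (hb : 2 ≤ b) (h : SM b f) (hc : ¬ IsChar f) :
    ∀ η : ℝ, 0 < η → ∃ T₀ : ℕ, ∀ T ≥ T₀, ∃ K₀ : ℕ, ∀ K ≥ K₀,
      ∑ r ∈ range T, ‖C f (b ^ 3) K r‖ ≤ η * T * ((b ^ 3 : ℕ) : ℝ) ^ K := by
  intro η hη
  set B : ℕ := b ^ 3 with hB
  have hSM : SM B f := sm_pow hb h 3
  have hB1 : 2 * b + 1 ≤ B := by
    have : 2 ^ 2 ≤ b ^ 2 := Nat.pow_le_pow_left hb 2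
    have h2 : b ^ 3 = b * b ^ 2 := by ring
    rw [hB, h2]
    nlinarith
  have hB8 : 3 ≤ B := by omega
  have hBr : (3 : ℝ) ≤ B := by exact_mod_cast hB8
  have hunit : ∀ t i, ‖f (i + t) * star (f i)‖ = 1 := by
    intro t i
    rw [norm_mul, norm_star, h.1, h.1, mul_one]
  obtain ⟨i, hi, hne⟩ := step_one hb h hc (B := B) (by omega)
  obtain ⟨i', hi', hne'⟩ := step_two hb h hc (B := B) hB1
  have s1 : ‖Ac f B 1‖ < ((B - 1 : ℕ) : ℝ) := sum_lt (w := fun i => f (i + 1) * star (f i))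
    (hunit 1) hi (by omega) hne
  have s2 : ‖Ac f B 2‖ < ((B - 2 : ℕ) : ℝ) := sum_lt (w := fun i => f (i + 2) * star (f i))
    (hunit 2) hi' (by omega) hne'
  rw [Nat.cast_sub (by omega)] at s1 s2
  push_cast at s1 s2
  obtain ⟨δ, hδ0, hδ1, hδ2⟩ : ∃ δ : ℝ, 0 < δ ∧ ‖Ac f B 1‖ ≤ B - 1 - δ ∧ ‖Ac f B 2‖ ≤ B - 2 - δ := by
    refine ⟨min (B - 1 - ‖Ac f B 1‖) (B - 2 - ‖Ac f B 2‖), lt_min (by linarith) (by linarith), ?_, ?_⟩
    · linarith [min_le_left (B - 1 - ‖Ac f B 1‖) (B - 2 - ‖Ac f B 2‖)]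
    · linarith [min_le_right (B - 1 - ‖Ac f B 1‖) (B - 2 - ‖Ac f B 2‖)]
  have hδB : δ ≤ B := by linarith [norm_nonneg (Ac f B 1)]
  set ρ : ℝ := 1 - δ / B ^ 2 with hρ
  have hρ1 : ρ < 1 := by
    have : 0 < δ / B ^ 2 := by positivity
    linarith
  have hρ0 : 0 ≤ ρ := by
    have : δ / B ^ 2 ≤ 1 := by
      rw [div_le_one (by positivity)]
      nlinarith
    linarith
  obtain ⟨n₀, hn₀⟩ := exists_pow_lt_of_lt_one (show 0 < η / B by positivity) hρ1
  refine ⟨B ^ n₀ + 1, fun T hT => ?_⟩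
  have hT1 : 1 < T := by
    have : 1 ≤ B ^ n₀ := Nat.one_le_pow _ _ (by omega)
    omega
  set n : ℕ := Nat.clog B T with hn
  have hTn : T ≤ B ^ n := Nat.le_pow_clog (by omega) T
  have hnT : B ^ n ≤ B * T := by
    have h1 : B ^ (n - 1) < T := Nat.pow_pred_clog_lt_self (by omega) hT1
    have h2 : 0 < n := Nat.clog_pos (by omega) hT1
    have h3 : B ^ n = B * B ^ (n - 1) := by
      rw [← pow_succ']
      congr 1
      omega
    rw [h3]
    exact Nat.mul_le_mul_left _ h1.le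
  have hnn : n₀ ≤ n := by
    by_contra h1
    push Not at h1
    have : B ^ n ≤ B ^ n₀ := Nat.pow_le_pow_right (by omega) h1.le
    omega
  refine ⟨n, fun K hK => ?_⟩
  obtain ⟨k, rfl⟩ : ∃ k, K = k + n := ⟨K - n, by omega⟩
  have h3 := mx_sum hB8 hSM hδB hδ1 hδ2 k n
  have h4 : ∑ r ∈ range T, ‖C f B (k + n) r‖ ≤ ∑ r ∈ range (B ^ n), mx f B (k + n) r := by
    refine (sum_le_sum_of_subset_of_nonneg (range_mono hTn) fun _ _ _ => norm_nonneg _).trans ?_
    exact sum_le_sum fun r _ => le_max_left _ _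
  have h5 : ((B : ℝ) ^ 2 - δ) = B ^ 2 * ρ := by
    rw [hρ]
    field_simp
  have h6 : ρ ^ n ≤ η / B := (pow_le_pow_of_le_one hρ0 hρ1.le hnn).trans hn₀.le
  have h7 : ((B : ℝ) ^ n) ≤ B * T := by exact_mod_cast hnT
  refine h4.trans (h3.trans ?_)
  rw [h5]
  calc ((B : ℝ) ^ 2 * ρ) ^ n * B ^ k = (B : ℝ) ^ n * ρ ^ n * B ^ (k + n) := by
        rw [mul_pow, pow_add, ← pow_mul, mul_comm 2 n, pow_mul]
        ring
    _ ≤ (B * T) * (η / B) * B ^ (k + n) := by gcongr
    _ = η * T * B ^ (k + n) := by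
        field_simp

end Pool.Agent.W5h25.DS
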