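import Pool.Agent.W5h25.DS.B

set_option autoImplicit false

/-! # Products of strongly multiplicative functions in coprime bases -/

namespace Pool.Agent.W5h25.DS

open Finset

open scoped Classical in
/-- the multiplicative differences are almost periodic, with periods prime to `b` -/
def Near (b : ℕ) (F : ℕ → ℂ) : Prop := (∀ x, ‖F x‖ ≤ 1) ∧ ∀ r : ℕ, ∀ ε : ℝ, 0 < ε → ∃ M : ℕ, 0 < M ∧
  M.Coprime b ∧ ∃ Q : ℕ → ℂ, (∀ y, ‖Q y‖ ≤ 1) ∧ (∀ y, Q (y + M) = Q y) ∧ ∃ N₀ : ℕ, ∀ N ≥ N₀,
  (((Ico N (2 * N)).filter (fun y => F (y + r) * star (F y) ≠ Q y)).card : ℝ) ≤ ε * N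

theorem near_phase (b : ℕ) {κ : ℂ} (hκ : ‖κ‖ = 1) : Near b (fun n => κ ^ n) := by
  classical
  refine ⟨fun x => by rw [norm_pow, hκ, one_pow], fun r ε hε => ⟨1, one_pos, Nat.coprime_one_left b,
    fun _ => κ ^ r, fun y => by rw [norm_pow, hκ, one_pow], fun y => rfl, 0, fun N _ => ?_⟩⟩
  have h1 : ∀ y : ℕ, κ ^ (y + r) * star (κ ^ y) = κ ^ r := by
    intro y
    have h2 : star (κ ^ y) * κ ^ y = 1 := star_mul_self' (by rw [norm_pow, hκ, one_pow])
    calc κ ^ (y + r) * star (κ ^ y) = κ ^ r * (star (κ ^ y) * κ ^ y) := by ring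
      _ = κ ^ r := by rw [h2, mul_one]
  rw [filter_false_of_mem (fun y _ => not_not.2 (h1 y))]
  simp only [card_empty, Nat.cast_zero]
  positivity

theorem count_bad {W : ℕ} (hW : 0 < W) (r N : ℕ) :
    (((Ico N (2 * N)).filter (fun y => W ≤ y % W + r)).card : ℝ) ≤ N / W * r + W := by
  have h1 := periodic_sum (g := fun y => if W ≤ y % W + r then (1 : ℂ) else 0) hW (fun y => by
    simp only [Nat.add_mod_right]) (fun y => by
    show ‖(if W ≤ y % W + r then (1 : ℂ) else 0)‖ ≤ 1
    split_ifs <;> simp) N N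
  have e1 : N + N = 2 * N := by ring
  rw [e1] at h1
  have e2 : ‖∑ y ∈ Ico N (2 * N), (if W ≤ y % W + r then (1 : ℂ) else 0)‖ =
      (((Ico N (2 * N)).filter (fun y => W ≤ y % W + r)).card : ℝ) := by
    rw [← sum_filter, sum_const, nsmul_eq_mul, mul_one, Complex.norm_natCast]
  have e3 : ‖∑ y ∈ range W, (if W ≤ y % W + r then (1 : ℂ) else 0)‖ ≤ r := by
    rw [← sum_filter, sum_const, nsmul_eq_mul, mul_one, Complex.norm_natCast]
    have h2 : ((range W).filter (fun y => W ≤ y % W + r)).card ≤ (Ico (W - r) W).card := by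
      apply card_le_card
      intro y hy
      rw [mem_filter, mem_range] at hy
      rw [Nat.mod_eq_of_lt hy.1] at hy
      rw [mem_Ico]
      omega
    rw [Nat.card_Ico] at h2
    have h3 : ((range W).filter (fun y => W ≤ y % W + r)).card ≤ r := by omega
    exact_mod_cast h3
  rw [e2] at h1
  refine h1.trans ?_
  gcongr

theorem near_sm {b b' : ℕ} {f : ℕ → ℂ} (hb' : 2 ≤ b') (hco : b'.Coprime b) (h : SM b' f) : Near b f := by
  classical
  refine ⟨fun x => (h.1 x).le, fun r ε hε => ?_⟩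
  obtain ⟨k, hk⟩ := pow_unbounded_of_one_lt (2 * r / ε) (show (1 : ℝ) < b' by
    exact_mod_cast (show 1 < b' by omega))
  set W : ℕ := b' ^ k with hW
  have hW0 : 0 < W := Nat.pow_pos (by omega)
  have hWr : (0 : ℝ) < W := by exact_mod_cast hW0
  have hSM : SM W f := sm_pow hb' h k
  refine ⟨W, hW0, Nat.Coprime.pow_left k hco, fun y => f (y % W + r) * star (f (y % W)),
    fun y => by rw [norm_mul, norm_star, h.1, h.1, mul_one], fun y => by simp only [Nat.add_mod_right], ?_⟩
  obtain ⟨N₀, hN₀⟩ := exists_nat_ge (2 * W / ε)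
  refine ⟨N₀, fun N hN => ?_⟩
  have h1 : ((Ico N (2 * N)).filter (fun y => f (y + r) * star (f y) ≠ f (y % W + r) * star (f (y % W)))).card
      ≤ ((Ico N (2 * N)).filter (fun y => W ≤ y % W + r)).card := by
    apply card_le_card
    intro y hy
    rw [mem_filter] at hy ⊢
    refine ⟨hy.1, ?_⟩
    by_contra h2
    push Not at h2
    apply hy.2
    have h3 : y = W * (y / W) + y % W := (Nat.div_add_mod y W).symm
    have h4 : y + r = W * (y / W) + (y % W + r) := by omega
    have h5 : star (f (y / W)) * f (y / W) = 1 := star_mul_self' (h.1 _)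
    rw [h4, hSM.2 _ _ h2]
    have h6 : f y = f (y / W) * f (y % W) := by
      conv_lhs => rw [h3]
      exact hSM.2 _ _ (Nat.mod_lt _ hW0)
    rw [h6, star_mul']
    calc f (y / W) * f (y % W + r) * (star (f (y / W)) * star (f (y % W))) =
        (star (f (y / W)) * f (y / W)) * (f (y % W + r) * star (f (y % W))) := by ring
      _ = f (y % W + r) * star (f (y % W)) := by rw [h5, one_mul]
  have h2 := count_bad hW0 r N
  have h3 : (2 * r / ε : ℝ) < W := by rw [hW]; push_cast; exact hk
  have h4 : 2 * (r : ℝ) ≤ ε * W := by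
    rw [div_lt_iff₀ hε] at h3
    linarith
  have h5 : (2 * W : ℝ) ≤ ε * N := by
    have h6 : (2 * W / ε : ℝ) ≤ N := hN₀.trans (by exact_mod_cast hN)
    rw [div_le_iff₀ hε] at h6
    linarith
  have h6 : (N : ℝ) / W * r ≤ ε / 2 * N := by
    rw [div_mul_eq_mul_div, div_le_iff₀ hWr]
    have : (N : ℝ) * (2 * r) ≤ N * (ε * W) := mul_le_mul_of_nonneg_left h4 (Nat.cast_nonneg _)
    linarith
  have h7 : (((Ico N (2 * N)).filter (fun y => f (y + r) * star (f y) ≠
      f (y % W + r) * star (f (y % W)))).card : ℝ) ≤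
      (((Ico N (2 * N)).filter (fun y => W ≤ y % W + r)).card : ℝ) := by exact_mod_cast h1
  linarith

theorem near_mul {b : ℕ} {F G : ℕ → ℂ} (hF : Near b F) (hG : Near b G) :
    Near b (fun x => F x * G x) := by
  classical
  refine ⟨fun x => by rw [norm_mul]; exact mul_le_one₀ (hF.1 x) (norm_nonneg _) (hG.1 x), fun r ε hε => ?_⟩
  obtain ⟨M, hM, hMb, P, hP1, hP2, N₁, hN₁⟩ := hF.2 r (ε / 2) (by positivity)
  obtain ⟨M', hM', hMb', P', hP1', hP2', N₂, hN₂⟩ := hG.2 r (ε / 2) (by positivity)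
  refine ⟨M * M', Nat.mul_pos hM hM', Nat.Coprime.mul_left hMb hMb', fun y => P y * P' y,
    fun y => by rw [norm_mul]; exact mul_le_one₀ (hP1 y) (norm_nonneg _) (hP1' y), fun y => ?_,
    max N₁ N₂, fun N hN => ?_⟩
  · have h1 : P (y + M * M') = P y := by
      have := (show Function.Periodic P M from hP2).nat_mul M' y
      rw [mul_comm M M']
      exact_mod_cast this
    have h2 : P' (y + M * M') = P' y := by
      have := (show Function.Periodic P' M' from hP2').nat_mul M y
      exact_mod_cast this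
    show P (y + M * M') * P' (y + M * M') = P y * P' y
    rw [h1, h2]
  · have h1 := hN₁ N ((le_max_left _ _).trans hN)
    have h2 := hN₂ N ((le_max_right _ _).trans hN)
    have h3 : ((Ico N (2 * N)).filter (fun y => F (y + r) * G (y + r) * star (F y * G y) ≠
        P y * P' y)).card ≤ ((Ico N (2 * N)).filter (fun y => F (y + r) * star (F y) ≠ P y)).card +
        ((Ico N (2 * N)).filter (fun y => G (y + r) * star (G y) ≠ P' y)).card := by
      refine le_trans (card_le_card ?_) (card_union_le _ _)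
      intro y hy
      rw [mem_filter] at hy
      rw [mem_union, mem_filter, mem_filter]
      by_contra h4
      push Not at h4
      apply hy.2
      rw [← h4.1 hy.1, ← h4.2 hy.1, star_mul']
      ring
    have h4 : (((Ico N (2 * N)).filter (fun y => F (y + r) * G (y + r) * star (F y * G y) ≠
        P y * P' y)).card : ℝ) ≤ (((Ico N (2 * N)).filter (fun y => F (y + r) * star (F y) ≠ P y)).card : ℝ) +
        (((Ico N (2 * N)).filter (fun y => G (y + r) * star (G y) ≠ P' y)).card : ℝ) := by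
      exact_mod_cast h3
    linarith

theorem near_prod {ι : Type} (b : ℕ) (s : Finset ι) (F : ι → ℕ → ℂ) (hF : ∀ i ∈ s, Near b (F i)) :
    Near b (fun x => ∏ i ∈ s, F i x) := by
  classical
  induction s using Finset.induction_on with
  | empty =>
    have := near_phase b (κ := 1) (by simp)
    simpa using this
  | insert i s hi ih =>
    have h1 := near_mul (hF i (mem_insert_self i s)) (ih fun j hj => hF j (mem_insert_of_mem hj))
    simp_rw [prod_insert hi]
    exact h1

theorem period_prod {G P : ℕ → ℂ} {W M : ℕ} (hW : 0 < W) (hco : M.Coprime W)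
    (hG : ∀ y, G (y + W) = G y) (hP : ∀ y, P (y + M) = P y) (hP1 : ∀ y, ‖P y‖ ≤ 1) :
    ‖∑ y ∈ range (M * W), G y * P y‖ ≤ M * ‖∑ z ∈ range W, G z‖ := by
  rw [sum_range_mul']
  have e1 : ∀ c, ∑ j ∈ range W, G (c + M * j) = ∑ z ∈ range W, G z := by
    intro c
    have h1 : ∀ y, G y = G (y % W) := fun y => ((show Function.Periodic G W from hG).map_mod_nat y).symm
    have hinj : Set.InjOn (fun j => (c + M * j) % W) (range W : Finset ℕ) := by
      intro x hx y hy h
      rw [mem_coe, mem_range] at hx hy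
      have h2 : c + M * x ≡ c + M * y [MOD W] := h
      have h3 : M * x ≡ M * y [MOD W] := Nat.ModEq.add_left_cancel' c h2
      have h4 : x ≡ y [MOD W] := Nat.ModEq.cancel_left_of_coprime (by
        rw [Nat.gcd_comm]; exact hco) h3
      have := h4
      unfold Nat.ModEq at this
      rwa [Nat.mod_eq_of_lt hx, Nat.mod_eq_of_lt hy] at this
    have himg : (range W).image (fun j => (c + M * j) % W) = range W := by
      apply eq_of_subset_of_card_le
      · intro z hz
        rw [mem_image] at hz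
        obtain ⟨j, _, rfl⟩ := hz
        exact mem_range.2 (Nat.mod_lt _ hW)
      · rw [card_image_of_injOn hinj]
    calc ∑ j ∈ range W, G (c + M * j) = ∑ j ∈ range W, G ((c + M * j) % W) :=
          sum_congr rfl fun j _ => h1 _
      _ = ∑ z ∈ (range W).image (fun j => (c + M * j) % W), G z := (sum_image hinj).symm
      _ = ∑ z ∈ range W, G z := by rw [himg]
  have e2 : ∀ c ∈ range M, ‖∑ j ∈ range W, G (c + M * j) * P (c + M * j)‖ ≤ ‖∑ z ∈ range W, G z‖ := by
    intro c _
    have h1 : ∀ j, P (c + M * j) = P c := by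
      intro j
      have := (show Function.Periodic P M from hP).nat_mul j c
      rw [mul_comm]
      exact_mod_cast this
    simp_rw [h1]
    rw [← sum_mul, e1, norm_mul]
    exact mul_le_of_le_one_right (norm_nonneg _) (hP1 c)
  refine (norm_sum_le _ _).trans ((sum_le_sum e2).trans ?_)
  rw [sum_const, card_range, nsmul_eq_mul]

theorem cor_main {b : ℕ} {f F : ℕ → ℂ} (hb : 2 ≤ b) (hf : SM b f) (hF : Near b F) (K r : ℕ)
    {ε : ℝ} (hε : 0 < ε) : Cor (fun x => f x * F x) r
      (‖C f (b ^ 3) K r‖ / ((b ^ 3 : ℕ) : ℝ) ^ K + 2 * r / ((b ^ 3 : ℕ) : ℝ) ^ K + ε) := by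
  classical
  set W : ℕ := (b ^ 3) ^ K with hW
  have hW0 : 0 < W := Nat.pow_pos (Nat.pow_pos (by omega))
  have hWr : (0 : ℝ) < W := by exact_mod_cast hW0
  have hSM : SM W f := by
    have := sm_pow hb hf (3 * K)
    rwa [pow_mul] at this
  obtain ⟨M, hM, hMb, P, hP1, hP2, N₁, hN₁⟩ := hF.2 r (ε / 4) (by positivity)
  have hMr : (0 : ℝ) < M := by exact_mod_cast hM
  have hMW : M.Coprime W := by
    rw [hW, ← pow_mul]
    exact Nat.Coprime.pow_right _ hMb
  obtain ⟨N₂, hN₂⟩ := exists_nat_ge ((2 * W + M * W) / (ε / 2))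
  refine ⟨max N₁ N₂, fun N hN => ?_⟩
  have h1 := hN₁ N ((le_max_left _ _).trans hN)
  have h2 : (2 * W + M * W : ℝ) ≤ ε / 2 * N := by
    have h3 : ((2 * W + M * W) / (ε / 2) : ℝ) ≤ N := hN₂.trans (by exact_mod_cast (le_max_right _ _).trans hN)
    rw [div_le_iff₀ (by positivity)] at h3
    linarith
  set G : ℕ → ℂ := fun y => f (y % W + r) * star (f (y % W)) with hG
  have hGper : ∀ y, G (y + W) = G y := fun y => by simp only [hG, Nat.add_mod_right]
  have hG1 : ∀ y, ‖G y‖ = 1 := fun y => by rw [hG]; simp only [norm_mul, norm_star, hf.1, mul_one]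
  have hterm : ∀ y, ‖(f (y + r) * F (y + r)) * star (f y * F y) - G y * P y‖ ≤
      (if W ≤ y % W + r then 2 else 0) + (if F (y + r) * star (F y) ≠ P y then 2 else 0) := by
    intro y
    have hb1 : ‖(f (y + r) * F (y + r)) * star (f y * F y)‖ ≤ 1 := by
      rw [norm_mul, norm_star, norm_mul, norm_mul, hf.1, hf.1, one_mul, one_mul]
      exact mul_le_one₀ (hF.1 _) (norm_nonneg _) (hF.1 _)
    have hb2 : ‖G y * P y‖ ≤ 1 := by
      rw [norm_mul, hG1, one_mul]
      exact hP1 y
    have hb3 : ‖(f (y + r) * F (y + r)) * star (f y * F y) - G y * P y‖ ≤ 2 :=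
      (norm_sub_le _ _).trans (by linarith)
    by_cases c1 : W ≤ y % W + r
    · rw [if_pos c1]
      split_ifs <;> linarith
    · rw [if_neg c1]
      by_cases c2 : F (y + r) * star (F y) ≠ P y
      · rw [if_pos c2]
        linarith
      · rw [if_neg c2]
        rw [not_not] at c2
        push Not at c1
        have h3 : y = W * (y / W) + y % W := (Nat.div_add_mod y W).symm
        have h4 : y + r = W * (y / W) + (y % W + r) := by omega
        have h5 : star (f (y / W)) * f (y / W) = 1 := star_mul_self' (hf.1 _)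
        have h6 : f y = f (y / W) * f (y % W) := by
          conv_lhs => rw [h3]
          exact hSM.2 _ _ (Nat.mod_lt _ hW0)
        have h7 : f (y + r) = f (y / W) * f (y % W + r) := by
          rw [h4]
          exact hSM.2 _ _ c1
        have h8 : (f (y + r) * F (y + r)) * star (f y * F y) = G y * P y := by
          rw [← c2, h7, h6, star_mul', star_mul', hG]
          calc f (y / W) * f (y % W + r) * F (y + r) *
              (star (f (y / W)) * star (f (y % W)) * star (F y)) =
              (star (f (y / W)) * f (y / W)) * (f (y % W + r) * star (f (y % W)) *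
                (F (y + r) * star (F y))) := by ring
            _ = _ := by rw [h5, one_mul]
        rw [h8, sub_self, norm_zero]
        norm_num
  have hdiff : ‖∑ y ∈ Ico N (2 * N), ((f (y + r) * F (y + r)) * star (f y * F y) - G y * P y)‖ ≤
      2 * (N / W * r + W) + 2 * (ε / 4 * N) := by
    refine (norm_sum_le _ _).trans ((sum_le_sum fun y _ => hterm y).trans ?_)
    rw [sum_add_distrib, ← sum_filter, ← sum_filter, sum_const, sum_const, nsmul_eq_mul, nsmul_eq_mul]
    have := count_bad hW0 r N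
    linarith
  have hper : ‖∑ y ∈ Ico N (2 * N), G y * P y‖ ≤ N / W * ‖C f (b ^ 3) K r‖ + M * W := by
    have h3 := periodic_sum (g := fun y => G y * P y) (P := M * W) (Nat.mul_pos hM hW0) (fun y => by
      have k1 : G (y + M * W) = G y := by
        have := (show Function.Periodic G W from hGper).nat_mul M y
        exact_mod_cast this
      have k2 : P (y + M * W) = P y := by
        have := (show Function.Periodic P M from hP2).nat_mul W y
        rw [mul_comm M W]
        exact_mod_cast this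
      show G (y + M * W) * P (y + M * W) = G y * P y
      rw [k1, k2]) (fun y => by
      rw [norm_mul, hG1, one_mul]
      exact hP1 y) N N
    have e1 : N + N = 2 * N := by ring
    rw [e1] at h3
    have h4 := period_prod hW0 hMW hGper hP2 hP1
    have h5 : ∑ z ∈ range W, G z = C f (b ^ 3) K r := by
      unfold C
      apply sum_congr rfl
      intro z hz
      rw [mem_range] at hz
      rw [hG]
      simp only [Nat.mod_eq_of_lt hz]
    rw [h5] at h4
    refine h3.trans ?_
    push_cast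
    have h6 : (N : ℝ) / (M * W) * ‖∑ y ∈ range (M * W), G y * P y‖ ≤ N / (M * W) * (M * ‖C f (b ^ 3) K r‖) :=
      mul_le_mul_of_nonneg_left h4 (by positivity)
    have h7 : (N : ℝ) / (M * W) * (M * ‖C f (b ^ 3) K r‖) = N / W * ‖C f (b ^ 3) K r‖ := by
      field_simp
    linarith
  have htot : ‖∑ y ∈ Ico N (2 * N), (f (y + r) * F (y + r)) * star (f y * F y)‖ ≤
      2 * (N / W * r + W) + 2 * (ε / 4 * N) + (N / W * ‖C f (b ^ 3) K r‖ + M * W) := by
    have h3 := norm_add_le (∑ y ∈ Ico N (2 * N), ((f (y + r) * F (y + r)) * star (f y * F y) - G y * P y))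
      (∑ y ∈ Ico N (2 * N), G y * P y)
    rw [← sum_add_distrib] at h3
    simp only [sub_add_cancel] at h3
    linarith
  have e2 : ((b ^ 3 : ℕ) : ℝ) ^ K = W := by rw [hW]; push_cast; ring
  rw [e2]
  refine htot.trans ?_
  have e3 : (‖C f (b ^ 3) K r‖ / W + 2 * r / W + ε) * (N : ℝ) =
      N / W * ‖C f (b ^ 3) K r‖ + 2 * (N / W * r) + ε * N := by
    field_simp
  rw [e3]
  linarith

/-- THE MAIN THEOREM -/
theorem sac_main {b : ℕ} {f F : ℕ → ℂ} (hb : 2 ≤ b) (hf : SM b f) (hc : ¬ IsChar f) (hF : Near b F) :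
    SAc (fun x => f x * F x) := by
  refine criterion (fun n => by
    rw [norm_mul, hf.1, one_mul]
    exact hF.1 n) fun η hη => ?_
  obtain ⟨T₀, hT₀⟩ := mean_cor hb hf hc (η / 2) (by positivity)
  refine ⟨T₀, fun T hT => ?_⟩
  obtain ⟨K₀, hK₀⟩ := hT₀ T hT
  have hB1 : (1 : ℝ) < ((b ^ 3 : ℕ) : ℝ) := by
    have : 2 ^ 3 ≤ b ^ 3 := Nat.pow_le_pow_left hb 3
    exact_mod_cast (show 1 < b ^ 3 by omega)
  obtain ⟨K₁, hK₁⟩ := pow_unbounded_of_one_lt (8 * T / η) hB1
  set K : ℕ := max K₀ K₁ with hK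
  set Y : ℝ := ((b ^ 3 : ℕ) : ℝ) ^ K with hY
  have hY0 : 0 < Y := by positivity
  have hYT : 8 * T ≤ η * Y := by
    have h1 : ((b ^ 3 : ℕ) : ℝ) ^ K₁ ≤ Y := pow_le_pow_right₀ hB1.le (le_max_right _ _)
    have h2 := hK₁.le.trans h1
    rw [div_le_iff₀ hη] at h2
    linarith
  refine ⟨fun r => ‖C f (b ^ 3) K r‖ / Y + 2 * r / Y + η / 4, fun r _ => ⟨by positivity,
    cor_main hb hf hF K r (by positivity)⟩, ?_⟩
  rw [sum_add_distrib, sum_add_distrib, ← sum_div, sum_const, card_range, nsmul_eq_mul]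
  have h1 := hK₀ K (le_max_left _ _)
  have h2 : (∑ r ∈ range T, ‖C f (b ^ 3) K r‖) / Y ≤ η / 2 * T := by
    rw [div_le_iff₀ hY0]
    exact h1
  have h3 : ∑ r ∈ range T, 2 * (r : ℝ) / Y ≤ η / 4 * T := by
    have h4 : ∀ r ∈ range T, 2 * (r : ℝ) / Y ≤ η / 4 := by
      intro r hr
      rw [mem_range] at hr
      rw [div_le_iff₀ hY0]
      have : (r : ℝ) ≤ T := by exact_mod_cast hr.le
      linarith
    refine (sum_le_sum h4).trans ?_
    rw [sum_const, card_range, nsmul_eq_mul]
    linarith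
  linarith

/-- linear phases with an irrational frequency -/
theorem sac_linear {κ : ℂ} (hκ : ‖κ‖ = 1) (hroot : ∀ D : ℕ, 0 < D → κ ^ D ≠ 1) : SAc (fun n => κ ^ n) := by
  refine ⟨fun n => by rw [norm_pow, hκ, one_pow], fun D hD η hη => ?_⟩
  have h1 : κ ^ D - 1 ≠ 0 := sub_ne_zero.2 (hroot D hD)
  have h1' : 0 < ‖κ ^ D - 1‖ := norm_pos_iff.2 h1
  obtain ⟨H, hH⟩ := exists_nat_ge (max 1 (2 / (η * ‖κ ^ D - 1‖)))
  have hH1 : (1 : ℝ) ≤ H := (le_max_left _ _).trans hH
  have hH2 : 2 / (η * ‖κ ^ D - 1‖) ≤ H := (le_max_right _ _).trans hH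
  refine ⟨H, by exact_mod_cast hH1, 0, fun N _ => ?_⟩
  have key : ∀ x, ‖SC (fun n => κ ^ n) D H x‖ ≤ η * H := by
    intro x
    unfold SC
    have e1 : ∀ i, κ ^ (x + D * i) = κ ^ x * (κ ^ D) ^ i := fun i => by rw [pow_add, pow_mul]
    simp_rw [e1]
    rw [← mul_sum, geom_sum_eq (hroot D hD), norm_mul, norm_pow, hκ, one_pow, one_mul, norm_div]
    have h2 : ‖(κ ^ D) ^ H - 1‖ ≤ 2 := by
      refine (norm_sub_le _ _).trans ?_
      rw [norm_pow, norm_pow, hκ, one_pow, one_pow, norm_one]
      norm_num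
    rw [div_le_iff₀ h1']
    rw [div_le_iff₀ (by positivity)] at hH2
    linarith
  calc ∑ x ∈ Ico N (2 * N), ‖SC (fun n => κ ^ n) D H x‖ ≤ ∑ _x ∈ Ico N (2 * N), η * H :=
        sum_le_sum fun x _ => key x
    _ = η * H * N := by
        rw [sum_const, Nat.card_Ico, nsmul_eq_mul]
        have : 2 * N - N = N := by omega
        rw [this]
        ring

end Pool.Agent.W5h25.DS
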