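import Pool.Agent.W5h47.LT.D
import Pool.Agent.W5h25.DS.C

set_option autoImplicit false

/-! # Complex functions with small short averages along the Collatz trajectories -/

namespace Pool.Agent.W5h25.DS

open Finset
open Pool.Agent.W5h47.LT (SA SS Co co_complete co_partial zd_ex)
open Pool.Agent.H499R2.ND (Dn zd_mono)
open Pool.Agent.W5h47.BD (zd_union)

theorem ss_re (f : ℕ → ℂ) (D H x : ℕ) : SS (fun n => (f n).re) D H x = (SC f D H x).re := by
  unfold SS SC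
  rw [Complex.re_sum]

theorem ss_im (f : ℕ → ℂ) (D H x : ℕ) : SS (fun n => (f n).im) D H x = (SC f D H x).im := by
  unfold SS SC
  rw [Complex.im_sum]

theorem sa_re {f : ℕ → ℂ} (h : SAc f) : SA (fun n => (f n).re) := by
  refine ⟨fun n => (Complex.abs_re_le_norm _).trans (h.1 n), fun D hD η hη => ?_⟩
  obtain ⟨H, hH, N₂, hN₂⟩ := h.2 D hD η hη
  refine ⟨H, hH, N₂, fun N hN => le_trans (sum_le_sum fun x _ => ?_) (hN₂ N hN)⟩
  rw [ss_re]
  exact Complex.abs_re_le_norm _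

theorem sa_im {f : ℕ → ℂ} (h : SAc f) : SA (fun n => (f n).im) := by
  refine ⟨fun n => (Complex.abs_im_le_norm _).trans (h.1 n), fun D hD η hη => ?_⟩
  obtain ⟨H, hH, N₂, hN₂⟩ := h.2 D hD η hη
  refine ⟨H, hH, N₂, fun N hN => le_trans (sum_le_sum fun x _ => ?_) (hN₂ N hN)⟩
  rw [ss_im]
  exact Complex.abs_im_le_norm _

theorem sac_neg {f : ℕ → ℂ} (h : SAc f) : SAc (fun n => -f n) := by
  refine ⟨fun n => by rw [norm_neg]; exact h.1 n, fun D hD η hη => ?_⟩
  obtain ⟨H, hH, N₂, hN₂⟩ := h.2 D hD η hη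
  refine ⟨H, hH, N₂, fun N hN => le_trans (sum_le_sum fun x _ => ?_) (hN₂ N hN)⟩
  have : SC (fun n => -f n) D H x = -SC f D H x := by
    unfold SC
    rw [sum_neg_distrib]
  rw [this, norm_neg]

theorem sac_star {f : ℕ → ℂ} (h : SAc f) : SAc (fun n => star (f n)) := by
  refine ⟨fun n => by rw [norm_star]; exact h.1 n, fun D hD η hη => ?_⟩
  obtain ⟨H, hH, N₂, hN₂⟩ := h.2 D hD η hη
  refine ⟨H, hH, N₂, fun N hN => le_trans (sum_le_sum fun x _ => ?_) (hN₂ N hN)⟩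
  have : SC (fun n => star (f n)) D H x = star (SC f D H x) := by
    unfold SC
    rw [star_sum]
  rw [this, norm_star]

/-- the sum over a residue class -/
noncomputable def cs (f : ℕ → ℂ) (q a s n : ℕ) : ℂ :=
  ∑ k ∈ (range s).filter (fun k => Co^[k] n % q = a), f (Co^[k] n)

theorem cs_eq (f : ℕ → ℂ) (q a s n : ℕ) : cs f q a s n =
    ∑ k ∈ range s, (fun x => if x % q = a then f x else 0) (Co^[k] n) := by
  unfold cs
  rw [sum_filter]

theorem norm_split {z : ℂ} {t : ℝ} (h : t < ‖z‖) : t / 2 < |z.re| ∨ t / 2 < |z.im| := by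
  by_contra hcon
  push Not at hcon
  have := Complex.norm_le_abs_re_add_abs_im z
  linarith [hcon.1, hcon.2]

theorem final {f : ℕ → ℂ} (hf : SAc f) (q : ℕ) (hq : 0 < q) (ε : ℝ) (hε : 0 < ε) :
    Dn (fun n => ∃ l : ℕ, (Co^[l] n = 1 ∧ ∀ j < l, Co^[j] n ≠ 1) ∧ ∃ s ≤ l, ∃ a < q,
      ε * l < ‖cs f q a s n‖) 0 ∧
    ∀ c : ℝ, 0 < c → Dn (fun n : ℕ => ∃ s : ℕ,
      (∀ k < s, (n : ℝ) ^ c ≤ ((Co^[k] n : ℕ) : ℝ)) ∧ ∃ a < q,
      ε * Real.log n < ‖cs f q a s n‖) 0 := by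
  have key : ∀ a : ℕ, ∃ g : ℕ → ℂ, SAc g ∧ SAc (fun z => -g (2 * z)) ∧
      ∀ s n, cs f q a s n = ∑ k ∈ range s, g (Co^[k] n) := by
    intro a
    have h1 := sac_class hf hq a
    exact ⟨_, h1, sac_neg (sac_double h1), fun s n => cs_eq f q a s n⟩
  constructor
  · refine zd_mono (zd_ex q (P := fun a n => (∃ l : ℕ, (Co^[l] n = 1 ∧ ∀ j < l, Co^[j] n ≠ 1) ∧
      ∃ s ≤ l, ε / 2 * l < |(cs f q a s n).re|) ∨ (∃ l : ℕ, (Co^[l] n = 1 ∧ ∀ j < l, Co^[j] n ≠ 1) ∧
      ∃ s ≤ l, ε / 2 * l < |(cs f q a s n).im|)) ?_) ?_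
    · intro a _
      obtain ⟨g, h1, h2, h3⟩ := key a
      simp_rw [h3, Complex.re_sum, Complex.im_sum]
      refine zd_union ?_ ?_
      · exact co_complete (sa_re h1) (sa_re h2) (fun z _ => by simp) (ε / 2) (by positivity)
      · exact co_complete (sa_im h1) (sa_im h2) (fun z _ => by simp) (ε / 2) (by positivity)
    · rintro n _ ⟨l, hl, s, hs, a, ha, h⟩
      rcases norm_split h with h | h
      · exact ⟨a, ha, Or.inl ⟨l, hl, s, hs, by rw [div_mul_eq_mul_div]; exact h⟩⟩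
      · exact ⟨a, ha, Or.inr ⟨l, hl, s, hs, by rw [div_mul_eq_mul_div]; exact h⟩⟩
  · intro c hc
    refine zd_mono (zd_ex q (P := fun a n => (∃ s : ℕ,
      (∀ k < s, (n : ℝ) ^ c ≤ ((Co^[k] n : ℕ) : ℝ)) ∧
      ε / 2 * Real.log n < |(cs f q a s n).re|) ∨ (∃ s : ℕ,
      (∀ k < s, (n : ℝ) ^ c ≤ ((Co^[k] n : ℕ) : ℝ)) ∧
      ε / 2 * Real.log n < |(cs f q a s n).im|)) ?_) ?_
    · intro a _
      obtain ⟨g, h1, h2, h3⟩ := key a
      simp_rw [h3, Complex.re_sum, Complex.im_sum]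
      refine zd_union ?_ ?_
      · exact co_partial (sa_re h1) (sa_re h2) (fun z _ => by simp) c (ε / 2) hc (by positivity)
      · exact co_partial (sa_im h1) (sa_im h2) (fun z _ => by simp) c (ε / 2) hc (by positivity)
    · rintro n _ ⟨s, hs, a, ha, h⟩
      rcases norm_split h with h | h
      · exact ⟨a, ha, Or.inl ⟨s, hs, by rw [div_mul_eq_mul_div]; exact h⟩⟩
      · exact ⟨a, ha, Or.inr ⟨s, hs, by rw [div_mul_eq_mul_div]; exact h⟩⟩

/-! ### Products over pairwise coprime bases -/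

theorem sm_one {b : ℕ} {f : ℕ → ℂ} (hb : 2 ≤ b) (h : SM b f) {κ : ℂ} (hκ : ∀ n, f n = κ ^ n) :
    κ ^ (b - 1) = 1 := by
  have h1 := h.2 1 0 (by omega)
  rw [sm_zero hb h, mul_one, add_zero, mul_one, hκ, hκ, pow_one] at h1
  have h2 : κ ≠ 0 := by
    intro h3
    have := h.1 1
    rw [hκ, h3] at this
    simp at this
  have h4 : κ ^ (b - 1) * κ = 1 * κ := by
    rw [← pow_succ, one_mul]
    rw [show b - 1 + 1 = b by omega]
    exact h1
  exact mul_right_cancel₀ h2 h4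

theorem sac_family {l : ℕ} (b : Fin l → ℕ) (hb : ∀ i, 2 ≤ b i)
    (hco : ∀ i j, i ≠ j → (b i).Coprime (b j)) (f : Fin l → ℕ → ℂ) (hf : ∀ i, SM (b i) (f i))
    {κ : ℂ} (hκ : ‖κ‖ = 1) (h : (∃ i, ¬ IsChar (f i)) ∨ ∀ D : ℕ, 0 < D → κ ^ D ≠ 1) :
    SAc (fun n => (∏ i, f i n) * κ ^ n) := by
  classical
  by_cases h1 : ∃ i, ¬ IsChar (f i)
  · obtain ⟨i₀, hi₀⟩ := h1
    have h2 : Near (b i₀) (fun x => ∏ i ∈ univ.erase i₀, f i x) := by
      apply near_prod
      intro i hi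
      exact near_sm (hb i) (hco i i₀ (ne_of_mem_erase hi)) (hf i)
    have h3 := sac_main (hb i₀) (hf i₀) hi₀ (near_mul h2 (near_phase (b i₀) hκ))
    have h4 : (fun n => (∏ i, f i n) * κ ^ n) =
        fun x => f i₀ x * ((∏ i ∈ univ.erase i₀, f i x) * κ ^ x) := by
      funext x
      rw [← mul_assoc, mul_prod_erase univ (fun i => f i x) (mem_univ i₀)]
    rw [h4]
    exact h3
  · have hroot : ∀ D : ℕ, 0 < D → κ ^ D ≠ 1 := by
      rcases h with h | h
      · exact absurd h h1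
      · exact h
    push Not at h1
    choose τ hτ using h1
    have h2 : ∀ i, τ i ^ (b i - 1) = 1 := fun i => sm_one (hb i) (hf i) (hτ i)
    have h3 : ∀ i, ‖τ i‖ = 1 := by
      intro i
      have := (hf i).1 1
      rwa [hτ i, pow_one] at this
    have h4 : (fun n => (∏ i, f i n) * κ ^ n) = fun n => ((∏ i, τ i) * κ) ^ n := by
      funext n
      rw [mul_pow, ← prod_pow]
      congr 1
      exact prod_congr rfl fun i _ => hτ i n
    rw [h4]
    apply sac_linear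
    · rw [norm_mul, norm_prod, hκ, mul_one]
      exact prod_eq_one fun i _ => h3 i
    · intro D hD h5
      set M := ∏ i, (b i - 1) with hM
      have hM0 : 0 < M := prod_pos fun i _ => by have := hb i; omega
      have h6 : (∏ i, τ i) ^ M = 1 := by
        rw [← prod_pow]
        apply prod_eq_one
        intro i _
        obtain ⟨c, hc⟩ : (b i - 1) ∣ M := dvd_prod_of_mem _ (mem_univ i)
        rw [hc, pow_mul, h2 i, one_pow]
      apply hroot (D * M) (by positivity)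
      have h7 : (((∏ i, τ i) * κ) ^ D) ^ M = 1 := by rw [h5, one_pow]
      rw [← pow_mul, mul_pow, mul_comm D M, pow_mul, h6, one_pow, one_mul] at h7
      rw [mul_comm D M]
      exact h7

end Pool.Agent.W5h25.DS
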